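import Pool.Agent.Lib_helper78.PCW.B

/-!
# The choice of the secret sequence (MP_5d94c0_lc)
-/

set_option autoImplicit false

namespace Pool.Agent.PCW

open Pool.Agent.CK Pool.Agent.CKP Pool.Agent.PSL

/-- Choosing the blocks of a sequence one after the other. -/
theorem exists_seq {r : ℕ → ℕ} (hr : StrictMono r) (Good : ℕ → (ℕ → Bool) → Prop)
    (h1 : ∀ (j : ℕ) (ρ ρ' : ℕ → Bool), (∀ m < r (j + 1), ρ m = ρ' m) → Good j ρ → Good j ρ')
    (h2 : ∀ (j : ℕ) (ρ : ℕ → Bool), ∃ ρ' : ℕ → Bool, (∀ m < r j, ρ' m = ρ m) ∧ Good j ρ') :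
    ∃ ρ, ∀ j, Good j ρ := by
  choose stp hs1 hs2 using h2
  set σ : ℕ → ℕ → Bool := fun n => Nat.rec (fun _ => false) (fun j ρ => stp j ρ) n with hσ
  have hsucc : ∀ j, σ (j + 1) = stp j (σ j) := fun j => rfl
  have hst : ∀ i j, i ≤ j → ∀ m < r i, σ j m = σ i m := by
    intro i j hij
    induction j, hij using Nat.le_induction with
    | base => intro m _; rfl
    | succ j hij ih =>
      intro m hm
      rw [hsucc, hs1 j (σ j) m (lt_of_lt_of_le hm (hr.monotone hij))]
      exact ih m hm
  refine ⟨fun m => σ (m + 1) m, fun j => ?_⟩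
  apply h1 j (σ (j + 1)) _ ?_ (by rw [hsucc]; exact hs2 j (σ j))
  intro m hm
  have hm1 : m < r (m + 1) := by
    have := hr.id_le (m + 1)
    simp only [id] at this
    omega
  rcases Nat.le_total (m + 1) (j + 1) with h | h
  · exact hst _ _ h m hm1
  · exact (hst _ _ h m hm).symm

/-- double counting -/
theorem bad_card {Y Z : Type} [Fintype Y] [Fintype Z] (R : Y → Z → Prop) (t W : ℕ)
    (h : ∀ z, Nat.card {y // R y z} ≤ t) :
    Nat.card {y // Fintype.card Z < W * Nat.card {z // R y z}} ≤ W * t := by
  classical
  set B := Finset.univ.filter fun y : Y => Fintype.card Z < W * Nat.card {z // R y z} with hB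
  have e1 : Nat.card {y // Fintype.card Z < W * Nat.card {z // R y z}} = B.card := by
    rw [Nat.card_eq_fintype_card, Fintype.card_subtype]
  rw [e1]
  have hsum : ∑ y : Y, Nat.card {z // R y z} ≤ t * Fintype.card Z := by
    have e2 : ∑ y : Y, Nat.card {z // R y z} = ∑ z : Z, Nat.card {y // R y z} := by
      simp only [Nat.card_eq_fintype_card, Fintype.card_subtype, Finset.card_filter]
      exact Finset.sum_comm
    rw [e2]
    calc ∑ z : Z, Nat.card {y // R y z} ≤ ∑ _z : Z, t := Finset.sum_le_sum fun z _ => h z
      _ = t * Fintype.card Z := by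
        rw [Finset.sum_const, Finset.card_univ, smul_eq_mul, mul_comm]
  by_contra hc
  push Not at hc
  have h1 : B.card * (Fintype.card Z + 1) ≤ W * (t * Fintype.card Z) := by
    calc B.card * (Fintype.card Z + 1) = ∑ _y ∈ B, (Fintype.card Z + 1) := by
          rw [Finset.sum_const, smul_eq_mul]
      _ ≤ ∑ y ∈ B, W * Nat.card {z // R y z} := Finset.sum_le_sum fun y hy => by
          rw [hB, Finset.mem_filter] at hy
          exact hy.2
      _ ≤ ∑ y : Y, W * Nat.card {z // R y z} :=
          Finset.sum_le_sum_of_subset_of_nonneg (Finset.subset_univ _) fun _ _ _ => Nat.zero_le _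
      _ = W * ∑ y : Y, Nat.card {z // R y z} := by rw [Finset.mul_sum]
      _ ≤ _ := Nat.mul_le_mul_left _ hsum
  have h2 : W * (t * Fintype.card Z) = W * t * Fintype.card Z := by ring
  have h3 : W * t * Fintype.card Z ≤ B.card * Fintype.card Z := Nat.mul_le_mul_right _ hc.le
  have h4 : B.card * (Fintype.card Z + 1) = B.card * Fintype.card Z + B.card := by ring
  omega

/-- union bound -/
theorem exists_good {ι Y : Type} [Fintype Y] (I : Finset ι) (Bad : ι → Y → Prop) (M : ℕ)
    (h : ∀ i ∈ I, Nat.card {y // Bad i y} ≤ M) (hM : I.card * M < Fintype.card Y) :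
    ∃ y, ∀ i ∈ I, ¬ Bad i y := by
  classical
  by_contra hc
  push Not at hc
  have h1 : (Finset.univ : Finset Y) ⊆ I.biUnion fun i => Finset.univ.filter fun y => Bad i y := by
    intro y _
    obtain ⟨i, hi, hb⟩ := hc y
    exact Finset.mem_biUnion.2 ⟨i, hi, Finset.mem_filter.2 ⟨Finset.mem_univ _, hb⟩⟩
  have h2 := (Finset.card_le_card h1).trans Finset.card_biUnion_le
  rw [Finset.card_univ] at h2
  have h3 : ∑ i ∈ I, (Finset.univ.filter fun y => Bad i y).card ≤ ∑ _i ∈ I, M :=
    Finset.sum_le_sum fun i hi => by
      have := h i hi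
      rwa [Nat.card_eq_fintype_card, Fintype.card_subtype] at this
  rw [Finset.sum_const, smul_eq_mul] at h3
  omega

/-! ### strings asked -/

/-- the string asked in the next step -/
def qry : Config → Option (List Bool)
  | (Cmd.ask r _ _ :: _, s) => some (s r)
  | _ => none

/-- the strings asked in the first `t` steps -/
def asked (O : Lang) (c : Cmd) (x w : List Bool) (t : ℕ) : List (List Bool) :=
  (List.range t).filterMap fun i => qry (run O c x w i)

theorem asked_length (O : Lang) (c : Cmd) (x w : List Bool) (t : ℕ) :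
    (asked O c x w t).length ≤ t := by
  unfold asked
  have := List.length_filterMap_le (fun i => qry (run O c x w i)) (List.range t)
  rwa [List.length_range] at this

theorem step_congr {O O' : Lang} {cf : Config} (h : ∀ q, qry cf = some q → O q = O' q) :
    step O cf = step O' cf := by
  obtain ⟨k, s⟩ := cf
  cases k with
  | nil => rfl
  | cons c k =>
    cases c with
    | ask r c d =>
      have := h (s r) rfl
      simp only [step, this]
    | _ => rfl

theorem run_succ (O : Lang) (c : Cmd) (x w : List Bool) (i : ℕ) :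
    run O c x w (i + 1) = step O (run O c x w i) := by
  unfold run
  rw [Function.iterate_succ_apply']

theorem run_congr {O O' : Lang} {c : Cmd} {x w : List Bool} {t : ℕ}
    (h : ∀ q ∈ asked O c x w t, O q = O' q) : ∀ i ≤ t, run O' c x w i = run O c x w i := by
  intro i
  induction i with
  | zero => intro _; rfl
  | succ i ih =>
    intro hi
    rw [run_succ, run_succ, ih (by omega)]
    refine (step_congr fun q hq => h q ?_).symm
    unfold asked
    rw [List.mem_filterMap]
    exact ⟨i, List.mem_range.2 (by omega), hq⟩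

/-- `y` is the block of a password that has been asked -/
theorem hit_card (π : List Bool) (m : ℕ) (L : List (List Bool)) :
    Nat.card {y : List.Vector Bool m // ∃ q ∈ L, (π ++ y.1) <+: q} ≤ L.length := by
  classical
  have h : ∀ y : {y : List.Vector Bool m // ∃ q ∈ L, (π ++ y.1) <+: q}, ∃ i : Fin L.length,
      (π ++ y.1.1) <+: L[i] := by
    rintro ⟨y, q, hq, hy⟩
    obtain ⟨i, hi, rfl⟩ := List.getElem_of_mem hq
    exact ⟨⟨i, hi⟩, hy⟩
  choose g hg using h
  have hinj : Function.Injective g := by
    intro a b hab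
    have h1 := hg a
    have h2 := hg b
    rw [hab] at h1
    have h3 : (π ++ a.1.1).length = (π ++ b.1.1).length := by
      rw [List.length_append, List.length_append, a.1.2, b.1.2]
    have h4 : π ++ a.1.1 = π ++ b.1.1 := by
      have h5 := List.prefix_of_prefix_length_le h1 h2 h3.le
      exact h5.eq_of_length h3
    apply Subtype.ext
    apply Subtype.ext
    exact List.append_cancel_left h4
  have := Nat.card_le_card_of_injective g hinj
  rwa [Nat.card_eq_fintype_card (α := Fin L.length), Fintype.card_fin] at this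

end Pool.Agent.PCW
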