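import Mathlib

/-!
# Parameters for the world with few queries (MP_5d94c0_lc)
-/

set_option autoImplicit false

namespace Pool.Agent.PCW

/-- the scales -/
def N (k : ℕ) : ℕ := 2 ^ 2 ^ k

theorem N_pos (k : ℕ) : 0 < N k := by unfold N; positivity

theorem N_two (k : ℕ) : 2 ≤ N k := by
  unfold N
  calc 2 = 2 ^ 1 := by norm_num
    _ ≤ 2 ^ 2 ^ k := Nat.pow_le_pow_right (by norm_num) Nat.one_le_two_pow

theorem N_mono {j k : ℕ} (h : j ≤ k) : N j ≤ N k :=
  Nat.pow_le_pow_right (by norm_num) (Nat.pow_le_pow_right (by norm_num) h)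

theorem N_lt {j k : ℕ} (h : j < k) : N j < N k :=
  Nat.pow_lt_pow_right (by norm_num) (Nat.pow_lt_pow_right (by norm_num) h)

theorem N_le_iff {j k : ℕ} : N j ≤ N k ↔ j ≤ k := by
  constructor
  · intro h
    by_contra hc
    have := N_lt (by omega : k < j)
    omega
  · exact N_mono

theorem N_succ (k : ℕ) : N (k + 1) = N k * N k := by
  unfold N
  rw [pow_succ, ← pow_add]
  congr 1
  ring

theorem k_lt_N (k : ℕ) : k < N k := by
  unfold N
  exact (Nat.lt_two_pow_self (n := k)).trans (Nat.lt_two_pow_self)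

/-- the condition on the parameter `b` at scale `k` -/
def Cnd (s : ℕ → ℕ) (b k : ℕ) : Prop :=
  ∀ m e : ℕ, e ≤ b → N k ≤ (m + 2) ^ e → (b + 1) * 2 ^ (k + 2) + 1 ≤ s m

theorem cnd_ev (s : ℕ → ℕ) (hs : ∀ b : ℕ, ∀ᶠ n in Filter.atTop, b * Nat.log 2 n ≤ s n) (b : ℕ) :
    ∃ K, ∀ k ≥ K, Cnd s b k := by
  obtain ⟨M, hM⟩ := Filter.eventually_atTop.1 (hs (16 * (b + 1) ^ 2))
  refine ⟨(M + 2 + 2) ^ b, fun k hk m e he h => ?_⟩
  have h1 : (M + 2 + 2) ^ b < N k := lt_of_le_of_lt hk (k_lt_N k)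
  have h2 : (m + 2) ^ e ≤ (m + 2) ^ b := Nat.pow_le_pow_right (by omega) he
  have h3 : (M + 2 + 2) ^ b < (m + 2) ^ b := lt_of_lt_of_le h1 (h.trans h2)
  have h4 : M + 2 + 2 < m + 2 := lt_of_pow_lt_pow_left₀ b (Nat.zero_le _) h3
  have h5 := hM m (by omega)
  set l := Nat.log 2 m with hl
  have hl1 : 1 ≤ l := by
    rw [hl]
    calc 1 = Nat.log 2 2 := by norm_num
      _ ≤ Nat.log 2 m := Nat.log_mono_right (by omega)
  have h6 : m + 2 < 2 ^ (2 * l + 2) := by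
    have h7 : m < 2 ^ (l + 1) := Nat.lt_pow_succ_log_self (by norm_num) m
    have h8 : 2 ^ (l + 1) + 2 ^ (l + 1) ≤ 2 ^ (2 * l + 2) := by
      have : 2 ^ (l + 1) + 2 ^ (l + 1) = 2 ^ (l + 2) := by ring
      rw [this]
      exact Nat.pow_le_pow_right (by norm_num) (by omega)
    have h9 : 2 ≤ 2 ^ (l + 1) := by
      calc 2 = 2 ^ 1 := by norm_num
        _ ≤ _ := Nat.pow_le_pow_right (by norm_num) (by omega)
    omega
  have h7 : N k < 2 ^ ((2 * l + 2) * b + 1) := by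
    refine lt_of_le_of_lt (h.trans h2) ?_
    calc (m + 2) ^ b ≤ (2 ^ (2 * l + 2)) ^ b := Nat.pow_le_pow_left h6.le b
      _ = 2 ^ ((2 * l + 2) * b) := by rw [← pow_mul]
      _ < _ := Nat.pow_lt_pow_right (by norm_num) (by omega)
  have h8 : 2 ^ k < (2 * l + 2) * b + 1 := (Nat.pow_lt_pow_iff_right (by norm_num)).1 h7
  have h9 : (2 * l + 2) * b ≤ 4 * l * b := Nat.mul_le_mul_right _ (by omega)
  have h10 : 2 ^ k ≤ 4 * l * b := by omega
  calc (b + 1) * 2 ^ (k + 2) + 1 = 4 * (b + 1) * 2 ^ k + 1 := by ring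
    _ ≤ 4 * (b + 1) * (4 * l * b) + 1 := by gcongr
    _ ≤ 16 * (b + 1) ^ 2 * l := by nlinarith
    _ ≤ s m := h5

/-- Slowly growing parameters. -/
theorem exists_b (s : ℕ → ℕ) (hs : ∀ b : ℕ, ∀ᶠ n in Filter.atTop, b * Nat.log 2 n ≤ s n) :
    ∃ b : ℕ → ℕ, (∀ k, b k ≤ k) ∧ Monotone b ∧ Filter.Tendsto b Filter.atTop Filter.atTop ∧
      ∀ k, Cnd s (b k) k := by
  classical
  set b : ℕ → ℕ := fun k => Nat.findGreatest (fun b => ∀ k' ≥ k, Cnd s b k') k with hb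
  have h0 : ∀ k, ∀ k' ≥ k, Cnd s 0 k' := by
    intro k k' _ m e he h
    have : e = 0 := by omega
    rw [this, pow_zero] at h
    have := N_two k'
    omega
  have hgood : ∀ k, ∀ k' ≥ k, Cnd s (b k) k' := by
    intro k
    have := Nat.findGreatest_spec (P := fun b => ∀ k' ≥ k, Cnd s b k') (Nat.zero_le k) (h0 k)
    exact this
  refine ⟨b, fun k => Nat.findGreatest_le k, ?_, ?_, fun k => hgood k k le_rfl⟩
  · intro k k' hk
    apply Nat.le_findGreatest ((Nat.findGreatest_le k).trans hk)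
    exact fun k'' hk'' => hgood k k'' (hk.trans hk'')
  · rw [Filter.tendsto_atTop]
    intro B
    obtain ⟨K, hK⟩ := cnd_ev s hs B
    filter_upwards [Filter.eventually_ge_atTop (max K B)] with k hk
    exact Nat.le_findGreatest ((le_max_right _ _).trans hk)
      fun k' hk' => hK k' (((le_max_left _ _).trans hk).trans hk')

/-- lengths of the passwords -/
def rr (b : ℕ → ℕ) : ℕ → ℕ
  | 0 => 0
  | j + 1 => rr b j + (b j + 1) * 2 ^ (j + 2)

theorem rr_lt (b : ℕ → ℕ) (j : ℕ) : rr b j < rr b (j + 1) := by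
  rw [rr]
  have : 0 < (b j + 1) * 2 ^ (j + 2) := by positivity
  omega

theorem rr_mono (b : ℕ → ℕ) : StrictMono (rr b) := strictMono_nat_of_lt_succ (rr_lt b)

theorem rr_ge (b : ℕ → ℕ) (j : ℕ) : j ≤ rr b j := (rr_mono b).id_le j

theorem rr_le {b : ℕ → ℕ} (hb : Monotone b) (j : ℕ) : rr b j ≤ (b j + 1) * 2 ^ (j + 2) := by
  have key : ∀ j, rr b j + (b j + 1) * 4 ≤ (b j + 1) * 2 ^ (j + 2) := by
    intro j
    induction j with
    | zero => rw [rr]; norm_num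
    | succ j ih =>
      rw [rr]
      have h1 : b j ≤ b (j + 1) := hb (Nat.le_succ j)
      have h2 : (b (j + 1) + 1) * 2 ^ (j + 1 + 2) =
          (b (j + 1) + 1) * 2 ^ (j + 2) + (b (j + 1) + 1) * 2 ^ (j + 2) := by ring
      have h3 : (b j + 1) * 2 ^ (j + 2) ≤ (b (j + 1) + 1) * 2 ^ (j + 2) :=
        Nat.mul_le_mul_right _ (by omega)
      have h4 : 4 ≤ 2 ^ (j + 2) := by
        calc 4 = 2 ^ 2 := by norm_num
          _ ≤ _ := Nat.pow_le_pow_right (by norm_num) (by omega)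
      have h5 : (b (j + 1) + 1) * 4 = (b j + 1) * 4 + (b (j + 1) - b j) * 4 := by
        rw [← Nat.add_mul]
        congr 1
        omega
      have h6 : (b (j + 1) + 1) * 2 ^ (j + 2) = (b j + 1) * 2 ^ (j + 2) +
          (b (j + 1) - b j) * 2 ^ (j + 2) := by
        rw [← Nat.add_mul]
        congr 1
        omega
      have h7 : (b (j + 1) - b j) * 4 ≤ (b (j + 1) - b j) * 2 ^ (j + 2) :=
        Nat.mul_le_mul_left _ h4
      omega
  have := key j
  omega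

theorem rr_le_N {b : ℕ → ℕ} (hb : Monotone b) (hk : ∀ k, b k ≤ k) (j : ℕ) :
    rr b j ≤ 4 * N j := by
  have h1 := rr_le hb j
  have h2 : (b j + 1) * 2 ^ (j + 2) ≤ (j + 1) * 2 ^ (j + 2) :=
    Nat.mul_le_mul_right _ (by have := hk j; omega)
  have key : ∀ j : ℕ, (j + 1) * 2 ^ j ≤ N j ∨ j ≤ 2 := by
    intro j
    by_cases hj : j ≤ 2
    · exact Or.inr hj
    · left
      obtain ⟨i, rfl⟩ : ∃ i, j = i + 3 := ⟨j - 3, by omega⟩
      unfold N
      have h3 : 2 * (i + 3) + 2 ≤ 2 ^ (i + 3) := by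
        have := Nat.lt_two_pow_self (n := i)
        have h4 : 2 ^ (i + 3) = 8 * 2 ^ i := by ring
        omega
      calc (i + 3 + 1) * 2 ^ (i + 3) ≤ 2 ^ (i + 3 + 1) * 2 ^ (i + 3) :=
            Nat.mul_le_mul_right _ (Nat.lt_two_pow_self).le
        _ = 2 ^ (2 * (i + 3) + 1) := by rw [← pow_add]; congr 1; ring
        _ ≤ _ := Nat.pow_le_pow_right (by norm_num) (by omega)
  rcases key j with h | h
  · have h5 : (j + 1) * 2 ^ (j + 2) = 4 * ((j + 1) * 2 ^ j) := by ring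
    omega
  · have hb0 := hk 0
    have hb1 := hk 1
    have hb2 := hk 2
    interval_cases j
    · simp [rr]
    · rw [rr, rr]; unfold N; norm_num; omega
    · rw [rr, rr, rr]; unfold N; norm_num; omega

/-- slack in the union bound -/
theorem union_num {b k : ℕ} (hb : b ≤ k) (h2 : 1 ≤ b) : 4 * (b + 1) ^ 2 < N (k + 2) := by
  have h1 : N (b + 2) ≤ N (k + 2) := N_mono (by omega)
  refine lt_of_lt_of_le ?_ h1
  have h3 : b + 1 < 2 ^ (b + 1) := Nat.lt_two_pow_self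
  have h4 : (b + 1) ^ 2 ≤ (2 ^ (b + 1)) ^ 2 := Nat.pow_le_pow_left h3.le 2
  have h5 : 2 * b + 4 < 2 ^ (b + 2) := by
    have : 2 ^ (b + 2) = 4 * 2 ^ b := by ring
    have h6 : b < 2 ^ b := Nat.lt_two_pow_self
    omega
  calc 4 * (b + 1) ^ 2 ≤ 4 * (2 ^ (b + 1)) ^ 2 := Nat.mul_le_mul_left _ h4
    _ = 2 ^ (2 * b + 4) := by rw [← pow_mul]; ring
    _ < _ := Nat.pow_lt_pow_right (by norm_num) h5

end Pool.Agent.PCW
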