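import Pool.Agent.Lib_helper61.PSL.Build
import Pool.Agent.Lib_helper78.PCW.A

/-!
# Oracles that answer universal `NP` questions to whoever knows the password (MP_5d94c0_lc)

`ρ` is the secret sequence, the password of scale `j` is `pre ρ (r j)`; it can only be used in
strings of length at least `N j`, and only for questions with `8 * |w| + 8 ≤ N j`.  `J` is the set
of active scales.
-/

set_option autoImplicit false

namespace Pool.Agent.PCW

open Pool.Agent.CK Pool.Agent.CKP Pool.Agent.PSL

/-- the string `q` has an active password, and the answer is positive -/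
def keyed (r : ℕ → ℕ) (ρ : ℕ → Bool) (J : ℕ → Prop) (O : Lang) (q : List Bool) : Prop :=
  ∃ j, J j ∧ pw q = pre ρ (r j) ∧ N j ≤ q.length ∧
    (isA q = true ∨ (8 * (qw q).length + 8 ≤ N j ∧ K O (qw q) = true))

open Classical in
/-- the operator -/
noncomputable def Fop (X : Lang) (r : ℕ → ℕ) (ρ : ℕ → Bool) (J : ℕ → Prop) (O : Lang) : Lang
  | false :: v => X v
  | q => decide (keyed r ρ J O q)

theorem Fop_local (X : Lang) (r : ℕ → ℕ) (ρ : ℕ → Bool) (J : ℕ → Prop) (O O' : Lang)
    (q : List Bool) (h : ∀ w : List Bool, w.length < q.length → O w = O' w) :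
    Fop X r ρ J O q = Fop X r ρ J O' q := by
  have key : keyed r ρ J O q ↔ keyed r ρ J O' q := by
    unfold keyed
    apply exists_congr
    intro j
    apply and_congr_right
    intro _
    apply and_congr_right
    intro _
    apply and_congr_right
    intro hN
    apply or_congr Iff.rfl
    apply and_congr_right
    intro h8
    rw [K_congr fun w hw => h w (by omega)]
  match q with
  | false :: v => rfl
  | [] => exact decide_eq_decide.2 key
  | true :: v => exact decide_eq_decide.2 key

/-- the oracle -/
noncomputable def orcl (X : Lang) (r : ℕ → ℕ) (ρ : ℕ → Bool) (J : ℕ → Prop) : Lang :=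
  (exists_fix (Fop X r ρ J) (Fop_local X r ρ J)).choose

theorem orcl_eq (X : Lang) (r : ℕ → ℕ) (ρ : ℕ → Bool) (J : ℕ → Prop) (q : List Bool) :
    orcl X r ρ J q = Fop X r ρ J (orcl X r ρ J) q :=
  (exists_fix (Fop X r ρ J) (Fop_local X r ρ J)).choose_spec q

variable {X : Lang} {r : ℕ → ℕ} {ρ : ℕ → Bool} {J : ℕ → Prop}

theorem orcl_false (v : List Bool) : orcl X r ρ J (false :: v) = X v := by
  rw [orcl_eq]
  rfl

theorem orcl_key {q : List Bool} (hq : q.head? ≠ some false) :
    orcl X r ρ J q = true ↔ keyed r ρ J (orcl X r ρ J) q := by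
  rw [orcl_eq]
  match q, hq with
  | [], _ => simp [Fop]
  | true :: v, _ => simp [Fop]
  | false :: v, hq => simp at hq

/-- agreement on short strings -/
theorem orcl_congr {J' : ℕ → Prop} {ρ' : ℕ → Bool} {n : ℕ}
    (h : ∀ j, N j ≤ n → ((J j ↔ J' j) ∧ (J j → pre ρ (r j) = pre ρ' (r j)))) :
    ∀ q : List Bool, q.length ≤ n → orcl X r ρ J q = orcl X r ρ' J' q := by
  have key : ∀ (l : ℕ) (q : List Bool), q.length = l → q.length ≤ n →
      orcl X r ρ J q = orcl X r ρ' J' q := by
    intro l
    induction l using Nat.strong_induction_on with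
    | _ l ih =>
      intro q hq hn
      by_cases hh : q.head? = some false
      · match q, hh with
        | false :: v, _ => rw [orcl_false, orcl_false]
      · rw [Bool.eq_iff_iff, orcl_key hh, orcl_key hh]
        unfold keyed
        apply exists_congr
        intro j
        by_cases hN : N j ≤ q.length
        · obtain ⟨h1, h2⟩ := h j (hN.trans hn)
          have hK : 8 * (qw q).length + 8 ≤ N j →
              K (orcl X r ρ J) (qw q) = K (orcl X r ρ' J') (qw q) := by
            intro h8
            apply K_congr
            intro w hw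
            exact ih w.length (by omega) w rfl (by omega)
          constructor
          · rintro ⟨g1, g2, g3, g4⟩
            refine ⟨h1.1 g1, by rw [← h2 g1]; exact g2, g3, ?_⟩
            rcases g4 with g4 | ⟨g4, g5⟩
            · exact Or.inl g4
            · exact Or.inr ⟨g4, by rw [← hK g4]; exact g5⟩
          · rintro ⟨g1, g2, g3, g4⟩
            refine ⟨h1.2 g1, by rw [h2 (h1.2 g1)]; exact g2, g3, ?_⟩
            rcases g4 with g4 | ⟨g4, g5⟩
            · exact Or.inl g4
            · exact Or.inr ⟨g4, by rw [hK g4]; exact g5⟩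
        · constructor
          · rintro ⟨_, _, g3, _⟩; exact absurd g3 hN
          · rintro ⟨_, _, g3, _⟩; exact absurd g3 hN
  exact fun q hq => key q.length q rfl hq

/-- the full oracle -/
noncomputable def full (X : Lang) (r : ℕ → ℕ) (ρ : ℕ → Bool) : Lang := orcl X r ρ fun _ => True

/-- the hybrid oracle with the scales up to `j` only -/
noncomputable def hyb (X : Lang) (r : ℕ → ℕ) (ρ : ℕ → Bool) (j : ℕ) : Lang :=
  orcl X r ρ fun i => i ≤ j

/-- The full oracle and the hybrid agree on all strings that do not contain the password of the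
next scale. -/
theorem full_eq_hyb (hr : StrictMono r) {j : ℕ} {q : List Bool}
    (hq : ¬ (pre ρ (r (j + 1)) <+: pw q)) : full X r ρ q = hyb X r ρ j q := by
  unfold full hyb
  by_cases hh : q.head? = some false
  · match q, hh with
    | false :: v, _ => rw [orcl_false, orcl_false]
  · rw [Bool.eq_iff_iff, orcl_key hh, orcl_key hh]
    unfold keyed
    apply exists_congr
    intro i
    by_cases hij : i ≤ j
    · have hK : 8 * (qw q).length + 8 ≤ N i →
          K (orcl X r ρ fun _ => True) (qw q) = K (orcl X r ρ fun i => i ≤ j) (qw q) := by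
        intro h8
        apply K_congr
        intro w hw
        apply orcl_congr (n := N i - 1) ?_ w (by omega)
        intro i' hi'
        have : i' < i := by
          by_contra hc
          have := N_mono (by omega : i ≤ i')
          have := N_pos i
          omega
        exact ⟨⟨fun _ => by show i' ≤ j; omega, fun _ => trivial⟩, fun _ => rfl⟩
      constructor
      · rintro ⟨_, g2, g3, g4⟩
        refine ⟨hij, g2, g3, ?_⟩
        rcases g4 with g4 | ⟨g4, g5⟩
        · exact Or.inl g4
        · exact Or.inr ⟨g4, by rw [← hK g4]; exact g5⟩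
      · rintro ⟨_, g2, g3, g4⟩
        refine ⟨trivial, g2, g3, ?_⟩
        rcases g4 with g4 | ⟨g4, g5⟩
        · exact Or.inl g4
        · exact Or.inr ⟨g4, by rw [hK g4]; exact g5⟩
    · constructor
      · rintro ⟨_, g2, _, _⟩
        exfalso
        apply hq
        rw [g2]
        exact pre_prefix ρ (hr.monotone (by omega))
      · rintro ⟨g1, _⟩
        exact absurd g1 hij

/-- The hybrid only depends on the passwords up to scale `j`. -/
theorem hyb_congr (hr : StrictMono r) {j : ℕ} {ρ' : ℕ → Bool} (h : ∀ m < r j, ρ m = ρ' m) :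
    hyb X r ρ j = hyb X r ρ' j := by
  funext q
  unfold hyb
  apply orcl_congr (n := q.length) ?_ q le_rfl
  intro i _
  refine ⟨Iff.rfl, fun hi => pre_congr fun m hm => h m ?_⟩
  have : r i ≤ r j := hr.monotone hi
  omega

/-! ### the answers -/

theorem pw_app {u : List Bool} {d : D} (z : List Bool) (h : toBits d.cdr = u) :
    pw (d.enc ++ z) = u := by
  have hdec : dec (d.enc ++ z) = d := by
    unfold dec
    rw [foldr_enc]
    rfl
  have h1 : toBits (dec (d.enc ++ z)).cdr = u := by rw [hdec]; exact h
  have h2 : u.length ≤ (d.enc ++ z).length := by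
    rw [← h, List.length_append, D.enc_length]
    have h3 := toBits_len d.cdr
    have h4 := cdr_size d
    omega
  unfold pw
  rw [h1, if_pos h2]

theorem dec_app (d : D) (z : List Bool) : dec (d.enc ++ z) = d := by
  unfold dec
  rw [foldr_enc]
  rfl

theorem head_cons (a b : D) (z : List Bool) : ((D.cons a b).enc ++ z).head? ≠ some false := by
  simp [D.enc]

/-- confirmation of passwords -/
theorem orcl_qA (u z : List Bool) : orcl X r ρ J (qA u ++ z) = true ↔
    ∃ j, J j ∧ u = pre ρ (r j) ∧ N j ≤ (qA u ++ z).length := by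
  have h1 : pw (qA u ++ z) = u := pw_app z (toBits_toD u)
  have h2 : isA (qA u ++ z) = true := by
    unfold isA qA
    rw [dec_app]
    simp [D.car]
  have h3 : (qA u ++ z).head? ≠ some false := head_cons _ _ _
  rw [orcl_key h3]
  unfold keyed
  apply exists_congr
  intro j
  rw [h1, h2]
  simp

/-- universal questions -/
theorem orcl_qB {j : ℕ} (hJ : J j) {w z : List Bool}
    (hw : 8 * w.length + 8 ≤ N j) (hz : N j ≤ (qB (pre ρ (r j)) w ++ z).length) :
    orcl X r ρ J (qB (pre ρ (r j)) w ++ z) = K (orcl X r ρ J) w := by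
  have h1 : pw (qB (pre ρ (r j)) w ++ z) = pre ρ (r j) := pw_app z (toBits_toD _)
  have h2 : isA (qB (pre ρ (r j)) w ++ z) = false := by
    unfold isA qB
    rw [dec_app]
    simp [D.car]
  have h4 : qw (qB (pre ρ (r j)) w ++ z) = w := by
    unfold qw qB
    rw [dec_app]
    exact toBits_toD w
  have h3 : (qB (pre ρ (r j)) w ++ z).head? ≠ some false := head_cons _ _ _
  rw [Bool.eq_iff_iff, orcl_key h3]
  unfold keyed
  rw [h1, h2, h4]
  constructor
  · rintro ⟨i, _, _, _, g⟩
    rcases g with g | g
    · exact absurd g (by simp)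
    · exact g.2
  · intro g
    exact ⟨j, hJ, rfl, hz, Or.inr ⟨hw, g⟩⟩

end Pool.Agent.PCW
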