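import Pool.Agent.Lib_helper78.PCW.G
import Pool.Agent.Lib_helper78.PCL.D
import Pool.Agent.Lib_helper82.TPR.Main

/-!
# Scales and tables in polynomial time (MP_5d94c0_lc)
-/

set_option autoImplicit false
set_option linter.unusedSectionVars false

namespace Pool.Agent.PCW

open Pool.Agent.CK Pool.Agent.CKP Pool.Agent.PSL

variable {P : Lang} {γ : Type} [ToD γ]

/-- Simulation of functions in `FP`. -/
theorem ptime_of_inFP_sim {Q : Lang} (hQ : PTime P Q) {f : List Bool → List Bool}
    (hf : InFP Q f) : PTime P f := by
  obtain ⟨c, k, h⟩ := hf
  have h1 := PCL.ptime_outG (P := P) (Q := fun _ : List Bool => Q) (hQ.comp PTime.id.snd) (cmdD c)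
    (PTime.id (α := List Bool)) ((UPoly.tb k).comp (PTime.id (α := List Bool)))
  refine h1.of_eq fun x => ?_
  rw [outU_eq, List.length_replicate, (h x).2]

/-! ### scales -/

theorem exists_scale (m : ℕ) : ∃ k, m ≤ N k := ⟨m, (k_lt_N m).le⟩

/-- the first scale with `m ≤ N k` -/
def kk (m : ℕ) : ℕ := Nat.find (exists_scale m)

theorem le_N_kk (m : ℕ) : m ≤ N (kk m) := Nat.find_spec (exists_scale m)

theorem N_lt_of_lt_kk {m j : ℕ} (h : j < kk m) : N j < m := by
  have := Nat.find_min (exists_scale m) h
  omega

theorem kk_le {m j : ℕ} (h : m ≤ N j) : kk m ≤ j := Nat.find_min' (exists_scale m) h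

theorem kk_N (k : ℕ) : kk (N k) = k := by
  have h1 : kk (N k) ≤ k := kk_le le_rfl
  have h2 := le_N_kk (N k)
  have h3 := N_le_iff.1 h2
  omega

theorem N_kk_le (m : ℕ) : N (kk m) ≤ m * m + 2 := by
  cases h : kk m with
  | zero =>
    have : N 0 = 2 := rfl
    omega
  | succ j =>
    have h1 : N j < m := N_lt_of_lt_kk (by omega)
    rw [N_succ]
    have := Nat.mul_le_mul h1.le h1.le
    omega

/-- one step of the search of the scale -/
def sstep (l : List Unit) (s : List Unit × List Unit) : List Unit × List Unit :=
  if decide (s.2.length < l.length) = true then (() :: s.1, umul s.2 s.2) else s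

/-- the scale of `|l|` -/
def scl (l : List Unit) : List Unit × List Unit :=
  l.foldl (fun s _ => sstep l s) ([], [(), ()])

theorem scl_key (l l' : List Unit) : l'.foldl (fun s _ => sstep l s) ([], [(), ()]) =
    (List.replicate (min l'.length (kk l.length)) (),
      List.replicate (N (min l'.length (kk l.length))) ()) := by
  induction l' using List.reverseRecOn with
  | nil =>
    rw [List.foldl_nil, List.length_nil, Nat.zero_min]
    rfl
  | append_singleton l' a ih =>
    rw [List.foldl_append, ih, List.foldl_cons, List.foldl_nil, List.length_append,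
      List.length_singleton]
    unfold sstep
    simp only [List.length_replicate, decide_eq_true_eq]
    by_cases h : l'.length < kk l.length
    · have e1 : min l'.length (kk l.length) = l'.length := by omega
      have e2 : min (l'.length + 1) (kk l.length) = l'.length + 1 := by omega
      rw [e1, e2, if_pos (N_lt_of_lt_kk h), umul_replicate, N_succ, List.replicate_succ]
    · have e1 : min l'.length (kk l.length) = kk l.length := by omega
      have e2 : min (l'.length + 1) (kk l.length) = kk l.length := by omega
      have h3 := le_N_kk l.length
      rw [e1, e2, if_neg (by omega)]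

theorem scl_eq (l : List Unit) : scl l =
    (List.replicate (kk l.length) (), List.replicate (N (kk l.length)) ()) := by
  have h := scl_key l l
  have h1 : kk l.length ≤ l.length := kk_le (k_lt_N _).le
  rw [Nat.min_eq_right h1] at h
  exact h

theorem ptime_scl {l : γ → List Unit} (hl : PTime P l) : PTime P (fun a => scl (l a)) := by
  have h : PTime P scl := by
    unfold scl
    have hs : PTime P (fun p : List Unit × (List Unit × List Unit) × Unit => sstep p.1 p.2.1) := by
      unfold sstep
      have h1 : PTime P (fun p : List Unit × (List Unit × List Unit) × Unit => p.2.1) :=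
        PTime.id.snd.fst
      have h2 : PTime P (fun p : List Unit × (List Unit × List Unit) × Unit => p.1) :=
        PTime.id.fst
      exact PTime.ite (PTime.nat_lt h1.snd.length h2.length)
        ((PTime.cons (PTime.const ()) h1.fst).pair (h1.snd.umul h1.snd)) h1
    refine PTime.foldl (l := fun l : List Unit => l)
      (i := fun _ => (([], [(), ()]) : List Unit × List Unit))
      (s := fun l s _ => sstep l s) PTime.id (PTime.const _) hs
      (Polynomial.C 2 * Polynomial.X + Polynomial.C 2 * (Polynomial.X * Polynomial.X) +
        Polynomial.C 10) ?_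
    intro l l' _
    rw [scl_key, sz_pair, sz_units, sz_units, List.length_replicate, List.length_replicate]
    have h1 : kk l.length ≤ l.length := kk_le (k_lt_N _).le
    have h2 : N (min l'.length (kk l.length)) ≤ N (kk l.length) := N_mono (min_le_right _ _)
    have h3 := N_kk_le l.length
    have h4 := length_le_sz l
    have h5 := Nat.mul_le_mul h4 h4
    simp only [Polynomial.eval_add, Polynomial.eval_mul, Polynomial.eval_X, Polynomial.eval_C]
    have h6 : min l'.length (kk l.length) ≤ kk l.length := min_le_right _ _
    omega
  exact h.comp hl

/-! ### the table of the lengths of the passwords -/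

/-- the table -/
def RT (b : ℕ → ℕ) : Lang := fun z =>
  decide ((toList (dec z).cdr).length < rr b (toList (dec z).car).length)

/-- the code of a question -/
def rtc (u v : List Unit) : List Bool := (D.cons (toD u) (toD v)).enc

theorem RT_rtc (b : ℕ → ℕ) (u v : List Unit) : RT b (rtc u v) = decide (v.length < rr b u.length) := by
  have e : dec (rtc u v) = D.cons (toD u) (toD v) := dec_enc _
  have e1 : (toList (dec (rtc u v)).car).length = u.length := by
    rw [e]
    show (toList (toD u)).length = _
    rw [toList_toD, List.length_map]
  have e2 : (toList (dec (rtc u v)).cdr).length = v.length := by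
    rw [e]
    show (toList (toD v)).length = _
    rw [toList_toD, List.length_map]
  unfold RT
  rw [e1, e2]

theorem ptime_rtc {u v : γ → List Unit} (hu : PTime P u) (hv : PTime P v) :
    PTime P (fun a => rtc (u a) (v a)) := PTime.enc (hu.code.consD hv.code)

/-- the length of the password in unary: `s = (1^k, 1^(N k))` -/
def rU (b : ℕ → ℕ) (s : List Unit × List Unit) : List Unit :=
  ulen ((rangeU (umul [(), (), (), ()] s.2)).filter fun j => RT b (rtc s.1 j))

theorem rU_eq {b : ℕ → ℕ} (hmono : Monotone b) (hb : ∀ k, b k ≤ k) (k : ℕ) :
    rU b (List.replicate k (), List.replicate (N k) ()) = List.replicate (rr b k) () := by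
  unfold rU
  have h4 : ([(), (), (), ()] : List Unit) = List.replicate 4 () := rfl
  rw [ulen_eq, h4, umul_replicate, rangeU_replicate, List.filter_map, List.length_map]
  congr 1
  have h1 : ((fun j => RT b (rtc (List.replicate k (), List.replicate (N k) ()).1 j)) ∘
      fun i => List.replicate i ()) = fun i => decide (i < rr b k) := by
    funext i
    simp only [Function.comp_apply]
    rw [RT_rtc, List.length_replicate, List.length_replicate]
  rw [h1]
  have h2 : rr b k ≤ 4 * N k := rr_le_N hmono hb k
  have h3 : ∀ n, rr b k ≤ n → ((List.range n).filter fun i => decide (i < rr b k)).length =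
      rr b k := by
    intro n hn
    have e1 : ((List.range n).filter fun i => decide (i < rr b k)).length =
        ((Finset.range n).filter fun i => i < rr b k).card := by
      rw [← List.toFinset_card_of_nodup (List.Nodup.filter _ List.nodup_range)]
      congr 1
      ext i
      simp
    have e2 : ((Finset.range n).filter fun i => i < rr b k) = Finset.range (rr b k) := by
      ext i
      simp only [Finset.mem_filter, Finset.mem_range]
      omega
    rw [e1, e2, Finset.card_range]
  exact h3 _ h2

theorem ptime_rU {b : ℕ → ℕ} (hT : PTime P (RT b)) {s : γ → List Unit × List Unit}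
    (hs : PTime P s) : PTime P (fun a => rU b (s a)) := by
  unfold rU
  refine PTime.ulen (PTime.filter (l := fun a => rangeU (umul [(), (), (), ()] (s a).2))
    (f := fun a j => RT b (rtc (s a).1 j)) (PTime.rangeU ((PTime.const _).umul hs.snd)) ?_)
  exact hT.comp (ptime_rtc (hs.comp PTime.id.fst).fst PTime.id.snd)

end Pool.Agent.PCW
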