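import Pool.Agent.Lib_helper78.PCW.J

/-!
# A sparse complete set, and the main theorem (MP_5d94c0_lc)
-/

set_option autoImplicit false
set_option linter.unusedSectionVars false

namespace Pool.Agent.PCW

open Pool.Agent.CK Pool.Agent.CKP Pool.Agent.PSL

variable {P : Lang} {γ : Type} [ToD γ]

/-- valid codes of short strings -/
def vls (b : ℕ → ℕ) (z : List Bool) : Bool :=
  decide (z = cd (zn z) (zu z)) && (decide ((scl (zn z)).2.length = (zn z).length) &&
    decide ((zu z).length ≤ (rU b (scl (zn z))).length))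

/-- the beginnings of the secret sequence -/
def SP (b : ℕ → ℕ) (ρ : ℕ → Bool) : Lang := fun z =>
  vls b z && decide (zu z = pre ρ (zu z).length)

/-- `u` is a beginning of `y` -/
def isPre (u y : List Bool) : Bool := decide (u ++ udrop u y = y)

theorem isPre_iff {u y : List Bool} : isPre u y = true ↔ u <+: y := by
  unfold isPre
  rw [decide_eq_true_eq, udrop_eq]
  constructor
  · intro h
    exact ⟨_, h⟩
  · rintro ⟨t, rfl⟩
    rw [List.drop_left]

theorem pre_of_prefix {ρ : ℕ → Bool} {u : List Bool} {n : ℕ} (h : u <+: pre ρ n) :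
    u = pre ρ u.length := by
  have h1 : u.length ≤ n := by
    have := h.length_le
    rwa [pre_length] at this
  have h2 := pre_prefix ρ h1
  have h3 := List.prefix_of_prefix_length_le h h2 (by rw [pre_length])
  exact h3.eq_of_length (by rw [pre_length])

theorem ptime_isPre {u y : γ → List Bool} (hu : PTime P u) (hy : PTime P y) :
    PTime P (fun a => isPre (u a) (y a)) :=
  TD.ptime_list_eq (hu.append (hu.udrop hy)) hy

section

variable {b : ℕ → ℕ} (hmono : Monotone b) (hb : ∀ k, b k ≤ k)

include hmono hb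

theorem vls_cd {k : ℕ} {u : List Bool} (hu : u.length ≤ rr b k) :
    vls b (cd (List.replicate (N k) ()) u) = true := by
  unfold vls
  rw [zn_cd, zu_cd, scl_eq]
  simp only [List.length_replicate]
  rw [kk_N, rU_eq hmono hb, List.length_replicate]
  simp [hu]

theorem vls_iff {z : List Bool} : vls b z = true ↔
    ∃ k, z = cd (List.replicate (N k) ()) (zu z) ∧ (zu z).length ≤ rr b k := by
  constructor
  · intro h
    unfold vls at h
    rw [Bool.and_eq_true, Bool.and_eq_true, decide_eq_true_eq, decide_eq_true_eq,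
      decide_eq_true_eq] at h
    obtain ⟨h1, h2, h3⟩ := h
    have h4 : zn z = List.replicate (zn z).length () := by
      unfold zn
      rw [ulen_eq, List.length_replicate]
    rw [scl_eq, List.length_replicate] at h2
    rw [scl_eq, rU_eq hmono hb, List.length_replicate] at h3
    refine ⟨kk (zn z).length, ?_, h3⟩
    rw [h2, ← h4]
    exact h1
  · rintro ⟨k, h1, h2⟩
    rw [h1]
    exact vls_cd hmono hb h2

theorem ptime_vls (hT : PTime P (RT b)) : PTime P (vls b) := by
  unfold vls
  have h1 : PTime P (fun z : List Bool => zn z) := ptime_zn PTime.id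
  have h2 : PTime P (fun z : List Bool => zu z) := ptime_zu PTime.id
  have h3 := ptime_scl h1
  exact (TD.ptime_list_eq PTime.id (ptime_cd h1 h2)).and ((PTime.nat_eq h3.snd.length
    h1.length).and (PTime.nat_le h2.length (ptime_rU hT h3).length))

theorem SP_cd (ρ : ℕ → Bool) {k : ℕ} {u : List Bool} (hu : u.length ≤ rr b k) :
    SP b ρ (cd (List.replicate (N k) ()) u) = decide (u = pre ρ u.length) := by
  unfold SP
  rw [vls_cd hmono hb hu, zu_cd, Bool.true_and]

theorem SP_snoc (ρ : ℕ → Bool) {k i : ℕ} (hi : i < rr b k) :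
    SP b ρ (cd (List.replicate (N k) ()) (pre ρ i ++ [true])) = ρ i := by
  rw [SP_cd hmono hb ρ (by rw [List.length_append, pre_length, List.length_singleton]; omega),
    List.length_append, pre_length, List.length_singleton, pre_succ]
  rw [Bool.eq_iff_iff, decide_eq_true_eq]
  constructor
  · intro h
    have := List.append_cancel_left h
    simp only [List.cons.injEq, and_true] at this
    exact this.symm
  · intro h
    rw [h]

/-- The set of the beginnings is reducible to the left cut. -/
theorem SP_turing {O : Lang} {ρ : ℕ → Bool} (hT : PTime O (RT b)) :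
    TuringReducible O (SP b ρ) (LL b ρ) := by
  have hL : PTime (join O (LL b ρ)) (LL b ρ) :=
    (PTime.askR (O := O) (B := LL b ρ) (PTime.id (α := List Bool)))
  have hz : PTime (join O (LL b ρ)) (fun z : List Bool => zu z) := ptime_zu PTime.id
  have hs : PTime (join O (LL b ρ)) (fun z : List Bool => scl (zn z)) :=
    ptime_scl (ptime_zn PTime.id)
  refine inP_of (((ptime_vls hmono hb hT.lift).and
    (ptime_isPre hz (ptime_fillA hL hT.lift hs))).of_eq fun z => ?_)
  unfold SP
  by_cases hv : vls b z = true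
  · obtain ⟨k, h1, h2⟩ := (vls_iff hmono hb).1 hv
    have h3 : zn z = List.replicate (N k) () := by
      rw [h1, zn_cd]
    rw [hv, Bool.true_and, Bool.true_and, h3, scl_eq, List.length_replicate, kk_N,
      fillA_eq hmono hb, Bool.eq_iff_iff, isPre_iff, decide_eq_true_eq]
    constructor
    · intro h
      exact pre_of_prefix h
    · intro h
      rw [h]
      exact pre_prefix ρ h2
  · rw [Bool.not_eq_true] at hv
    rw [hv, Bool.false_and, Bool.false_and]

/-- Pairs can be approximated. -/
theorem SP_pairs (hT : PTime P (RT b)) (ρ : ℕ → Bool) : PairApproximable P (SP b ρ) := by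
  have hv := ptime_vls hmono hb hT
  have h1 : PTime P (fun p : List Bool × List Bool => zu p.1) := ptime_zu PTime.id.fst
  have h2 : PTime P (fun p : List Bool × List Bool => zu p.2) := ptime_zu PTime.id.snd
  have hf : PTime P (fun p : List Bool × List Bool =>
      if (vls b p.1 && vls b p.2) = true then (if isPre (zu p.1) (zu p.2) = true then
        [false, true] else if isPre (zu p.2) (zu p.1) = true then [true, false] else
          [true, true]) else [true, true]) :=
    PTime.ite ((hv.comp PTime.id.fst).and (hv.comp PTime.id.snd))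
      (PTime.ite (ptime_isPre h1 h2) (PTime.const _) (PTime.ite (ptime_isPre h2 h1)
        (PTime.const _) (PTime.const _))) (PTime.const _)
  obtain ⟨c, k, h⟩ := two_inputs hf
  -- initial segments of elements
  have hseg : ∀ u v : List Bool, u <+: v → v = pre ρ v.length → u = pre ρ u.length := by
    intro u v huv hv
    rw [hv] at huv
    exact pre_of_prefix huv
  refine ⟨c, k, fun x y => ⟨(h x y).1, ?_⟩⟩
  have h3 := (h x y).2
  simp only at h3
  unfold SP
  by_cases g0 : (vls b x && vls b y) = true
  · rw [if_pos g0] at h3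
    rw [Bool.and_eq_true] at g0
    rw [g0.1, g0.2, Bool.true_and, Bool.true_and]
    by_cases g1 : isPre (zu x) (zu y) = true
    · rw [if_pos g1] at h3
      refine ⟨false, true, h3, ?_⟩
      rintro ⟨e1, e2⟩
      rw [decide_eq_true_eq] at e2
      rw [decide_eq_false_iff_not] at e1
      exact e1 (hseg _ _ (isPre_iff.1 g1) e2)
    · rw [if_neg g1] at h3
      by_cases g2 : isPre (zu y) (zu x) = true
      · rw [if_pos g2] at h3
        refine ⟨true, false, h3, ?_⟩
        rintro ⟨e1, e2⟩
        rw [decide_eq_true_eq] at e1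
        rw [decide_eq_false_iff_not] at e2
        exact e2 (hseg _ _ (isPre_iff.1 g2) e1)
      · rw [if_neg g2] at h3
        refine ⟨true, true, h3, ?_⟩
        rintro ⟨e1, e2⟩
        rw [decide_eq_true_eq] at e1 e2
        rcases Nat.le_total (zu x).length (zu y).length with hl | hl
        · apply g1
          rw [isPre_iff, e1, e2]
          exact pre_prefix ρ hl
        · apply g2
          rw [isPre_iff, e1, e2]
          exact pre_prefix ρ hl
  · rw [if_neg g0] at h3
    refine ⟨true, true, h3, ?_⟩
    rintro ⟨e1, e2⟩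
    rw [Bool.and_eq_true] at e1 e2
    exact g0 (by rw [Bool.and_eq_true]; exact ⟨e1.1, e2.1⟩)

/-- the number of elements -/
theorem SP_sparse (htend : Filter.Tendsto b Filter.atTop Filter.atTop) {s : ℕ → ℕ}
    (hcnd : ∀ k, Cnd s (b k) k) (ρ : ℕ → Bool) : ∀ᶠ n : ℕ in Filter.atTop,
      Nat.card {z : List Bool // z.length ≤ n ∧ SP b ρ z = true} ≤ s n ^ 2 := by
  obtain ⟨K0, hK0⟩ := Filter.eventually_atTop.1 (Filter.tendsto_atTop.1 htend 1)
  filter_upwards [Filter.eventually_ge_atTop (N (K0 + 1))] with n hn
  have hk : K0 + 1 < kk (n + 1) := by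
    by_contra hc
    have h1 := le_N_kk (n + 1)
    have h2 := N_mono (by omega : kk (n + 1) ≤ K0 + 1)
    omega
  obtain ⟨k0, hk0⟩ : ∃ k0, kk (n + 1) = k0 + 1 := ⟨kk (n + 1) - 1, by omega⟩
  have hN : N k0 ≤ n := by
    have := N_lt_of_lt_kk (by omega : k0 < kk (n + 1))
    omega
  have h1 := hcnd k0 n 1 (hK0 k0 (by omega)) (by rw [pow_one]; omega)
  have h2 := rr_le hmono k0
  have h3 := rr_ge b k0
  have hz : ∀ z : List Bool, z.length ≤ n → SP b ρ z = true →
      ∃ k ≤ k0, z = cd (List.replicate (N k) ()) (zu z) ∧ (zu z).length ≤ rr b k0 ∧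
        kk (zn z).length = k ∧ zu z = pre ρ (zu z).length := by
    intro z hz1 hz2
    unfold SP at hz2
    rw [Bool.and_eq_true, decide_eq_true_eq] at hz2
    obtain ⟨k, g1, g2⟩ := (vls_iff hmono hb).1 hz2.1
    have g5 : k ≤ k0 := by
      by_contra hc
      have g3 := cd_length (N k) (zu z)
      rw [← g1] at g3
      have g4 := N_mono (by omega : kk (n + 1) ≤ k)
      have g5 := le_N_kk (n + 1)
      omega
    refine ⟨k, g5, g1, g2.trans ((rr_mono b).monotone g5), ?_, hz2.2⟩
    rw [g1, zn_cd, List.length_replicate, kk_N]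
  have h4 : Nat.card {z : List Bool // z.length ≤ n ∧ SP b ρ z = true} ≤
      Nat.card (Fin (k0 + 1) × Fin (rr b k0 + 1)) := by
    apply Nat.card_le_card_of_injective (fun z : {z : List Bool // z.length ≤ n ∧
      SP b ρ z = true} => ((⟨kk (zn z.1).length, by
        obtain ⟨k, g1, _, _, g4, _⟩ := hz z.1 z.2.1 z.2.2
        omega⟩, ⟨(zu z.1).length, by
        obtain ⟨k, _, _, g3, _, _⟩ := hz z.1 z.2.1 z.2.2
        omega⟩) : Fin (k0 + 1) × Fin (rr b k0 + 1)))
    intro z z' hzz
    simp only [Prod.mk.injEq, Fin.mk.injEq] at hzz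
    obtain ⟨e1, e2⟩ := hzz
    obtain ⟨k, _, g2, _, g4, g5⟩ := hz z.1 z.2.1 z.2.2
    obtain ⟨k', _, g2', _, g4', g5'⟩ := hz z'.1 z'.2.1 z'.2.2
    apply Subtype.ext
    have hkk : k = k' := by omega
    rw [g2, g2', hkk]
    congr 1
    rw [g5, g5', e2]
  have h5 : Nat.card (Fin (k0 + 1) × Fin (rr b k0 + 1)) = (k0 + 1) * (rr b k0 + 1) := by
    rw [Nat.card_prod, Nat.card_eq_fintype_card, Nat.card_eq_fintype_card, Fintype.card_fin,
      Fintype.card_fin]
  rw [h5] at h4
  refine h4.trans ?_
  rw [pow_two]
  exact Nat.mul_le_mul (by omega) (by omega)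

end

/-- finding the password with the beginnings -/
def fillS (S : Lang) (b : ℕ → ℕ) (s : List Unit × List Unit) : List Bool :=
  (rU b s).foldl (fun a _ => a ++ [S (cd s.2 (a ++ [true]))]) []

theorem fillS_eq {b : ℕ → ℕ} (hmono : Monotone b) (hb : ∀ k, b k ≤ k) (ρ : ℕ → Bool) (k : ℕ) :
    fillS (SP b ρ) b (List.replicate k (), List.replicate (N k) ()) = pre ρ (rr b k) := by
  have key : ∀ (l : List Unit) (n : ℕ), n + l.length ≤ rr b k →
      l.foldl (fun a _ => a ++ [SP b ρ (cd (List.replicate (N k) ()) (a ++ [true]))])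
        (pre ρ n) = pre ρ (n + l.length) := by
    intro l
    induction l with
    | nil => intro n _; rfl
    | cons a t ih =>
      intro n hn
      rw [List.length_cons] at hn
      rw [List.foldl_cons, SP_snoc hmono hb ρ (by omega), ← pre_succ, ih (n + 1) (by omega),
        List.length_cons]
      congr 1
      omega
  have h := key (rU b (List.replicate k (), List.replicate (N k) ())) 0 (by
    rw [rU_eq hmono hb, List.length_replicate]
    omega)
  rw [Nat.zero_add] at h
  unfold fillS
  have h0 : pre ρ 0 = [] := rfl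
  rw [h0] at h
  rw [h, rU_eq hmono hb, List.length_replicate]

theorem ptime_fillS {S : Lang} {b : ℕ → ℕ} (hS : PTime P S) (hT : PTime P (RT b))
    {s : γ → List Unit × List Unit} (hs : PTime P s) : PTime P (fun a => fillS S b (s a)) := by
  unfold fillS
  have hu : PTime P (fun p : γ × List Bool × Unit => p.2.1) := PTime.id.snd.fst
  have hss : PTime P (fun p : γ × List Bool × Unit => s p.1) := hs.comp PTime.id.fst
  refine PTime.foldl_add (l := fun a => rU b (s a)) (i := fun _ => ([] : List Bool))
    (s := fun x a _ => a ++ [S (cd (s x).2 (a ++ [true]))]) (ptime_rU hT hs) (PTime.const _)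
    (hu.append (PTime.cons (hS.comp (ptime_cd hss.snd (hu.append (PTime.const [true]))))
      (PTime.const []))) (Polynomial.C 4) ?_
  intro x a _ _
  rw [Polynomial.eval_C, sz_snoc]
  have := bool_sz (S (cd (s x).2 (a ++ [true])))
  omega

theorem SP_complete {X : Lang} {b : ℕ → ℕ} {ρ : ℕ → Bool} (hmono : Monotone b)
    (hb : ∀ k, b k ≤ k) (hT : PTime (full X (rr b) ρ) (RT b)) :
    TuringComplete (full X (rr b) ρ) (SP b ρ) := by
  constructor
  · obtain ⟨c, k, h1, h2, _⟩ := up_turing hmono hb hT (SP_turing hmono hb hT)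
    exact ⟨c, k, h1, h2⟩
  · intro D hD
    obtain ⟨i, rfl⟩ := exists_NL hD
    set O := full X (rr b) ρ with hO
    refine inP_of ?_
    have hS : PTime (join O (SP b ρ)) (SP b ρ) :=
      (PTime.askR (O := O) (B := SP b ρ) (PTime.id (α := List Bool)))
    have hO' : PTime (join O (SP b ρ)) O := (PTime.ask (O := O) PTime.id).lift
    have hs : PTime (join O (SP b ρ)) (fun x : List Bool => ss i x) := ptime_ss PTime.id
    refine (ptime_df hO' (i := i) PTime.id (ptime_fillS hS hT.lift hs)).of_eq fun x => ?_
    rw [ss_eq, fillS_eq hmono hb, hO, df_eq]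

/-! ### the world -/

/-- The main theorem. -/
theorem main (R : Lang) (s : ℕ → ℕ)
    (hs : ∀ b : ℕ, ∀ᶠ n in Filter.atTop, b * Nat.log 2 n ≤ s n) :
    ∃ (O L S : Lang) (G F K : List Bool → List Bool),
      InP O R ∧ TD.TrapdoorPermutations O G F K ∧ SecurePPT O G F ∧
      PCL.PSelective O L ∧ TuringComplete O L ∧ ¬ InP O L ∧
      (∀ᶠ n : ℕ in Filter.atTop,
        Nat.card {z : List Bool // z.length ≤ n ∧ L z = true} ≤ 2 ^ s n) ∧
      (∀ (j : ℕ) (D : Lang), SigmaP O j D →
        FewQueriesReducible O D L s ∧ InUP O D ∧ InUP O fun x => !D x) ∧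
      PairApproximable O S ∧ TuringComplete O S ∧
      (∀ᶠ n : ℕ in Filter.atTop,
        Nat.card {z : List Bool // z.length ≤ n ∧ S z = true} ≤ s n ^ 2) := by
  obtain ⟨b, hb, hmono, htend, hcnd⟩ := exists_b s hs
  obtain ⟨P0, G, F, K, h⟩ := TPR.tdp5 (fun _ => false) (join R (RT b))
  obtain ⟨hT, hS⟩ := h (fun _ => false) (fun _ => []) (fun _ => by simp) (fun _ _ _ => rfl)
  set XO := join (join P0 (join R (RT b))) (fun _ => false) with hXO
  obtain ⟨ρ, hρ⟩ := exists_rho XO hb (chg G F)
  set O := full XO (rr b) ρ with hO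
  have hX : PTime O XO := (PTime.ask (O := O) (PTime.cons (PTime.const false)
    (PTime.id (α := List Bool)))).of_eq fun v => orcl_false v
  have hR : PTime O R := (hX.comp (PTime.cons (PTime.const false) (PTime.cons (PTime.const true)
    (PTime.cons (PTime.const false) (PTime.id (α := List Bool)))))).of_eq fun _ => rfl
  have hRT : PTime O (RT b) := (hX.comp (PTime.cons (PTime.const false)
    (PTime.cons (PTime.const true) (PTime.cons (PTime.const true)
    (PTime.id (α := List Bool)))))).of_eq fun _ => rfl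
  have hT' : TD.TrapdoorPermutations O G F K :=
    { inFP_G := inFP_of (ptime_of_inFP_sim hX hT.inFP_G)
      inFP_F := inFP_of (ptime_of_inFP_sim hX hT.inFP_F)
      inFP_H := inFP_of (ptime_of_inFP_sim hX hT.inFP_H)
      bij_G := hT.bij_G
      bij_F := hT.bij_F
      inv := hT.inv }
  have hS' : SecurePPT O G F := secure_full hT hS hb hmono htend hρ
  have hC : TuringComplete O (LL b ρ) := LL_complete hmono hb hRT
  refine ⟨O, LL b ρ, SP b ρ, G, F, K, inP_of hR, hT', hS', LL_selective hmono hb hRT ρ, hC,
    fun hL => not_collapse hT' hS' (collapse_of_complete hC hL),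
    LL_density hmono hb htend hcnd, fun j D hD => ?_, SP_pairs hmono hb hRT ρ,
    SP_complete hmono hb hRT, SP_sparse hmono hb htend hcnd ρ⟩
  have h1 := ph_turing hmono hb hRT hC j D hD
  exact ⟨few_turing hmono hb htend hcnd hRT h1, up_turing hmono hb hRT h1,
    up_turing hmono hb hRT (turing_compl h1)⟩

end Pool.Agent.PCW
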