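import Pool.Agent.Lib_helper78.PCW.C
import Pool.Agent.Lib_helper64.TDF.CDA

/-!
# No efficient program guesses the password of the next scale (MP_5d94c0_lc)
-/

set_option autoImplicit false

namespace Pool.Agent.PCW

open Pool.Agent.CK Pool.Agent.CKP Pool.Agent.PSL

/-- challenges of level `n` together with `l` random bits -/
abbrev Zt (n l : ℕ) : Type := (X n × X n) × X l

theorem card_X (n : ℕ) : Fintype.card (X n) = 2 ^ n := by
  have h : Fintype.card (List.Vector Bool n) = 2 ^ n := by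
    rw [card_vector, Fintype.card_bool]
  exact h

theorem card_Zt (n l : ℕ) : Fintype.card (Zt n l) = 4 ^ n * 2 ^ l := by
  rw [Fintype.card_prod, Fintype.card_prod, card_X, card_X]
  congr 1
  rw [← mul_pow]
  norm_num

/-- the program asks for the password `P` -/
def Hit (H : Lang) (c : Cmd) (x w : List Bool) (t : ℕ) (P : List Bool) : Prop :=
  ∃ q ∈ (asked H c x w t).map pw, P <+: q

/-- Efficient programs (with index at most `b`) find the password of scale `j + 1` for few of the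
challenges and random bits only. -/
def Good (XO : Lang) (r b : ℕ → ℕ) (ch : List Bool → List Bool → List Bool) (j : ℕ)
    (ρ : ℕ → Bool) : Prop :=
  ∀ (c : Cmd) (e : ℕ), Encodable.encode c ≤ b j → 4 * e + 2 ≤ b j → ∀ n, N (j + 1) ≤ n →
    n < N (j + 2) → ∀ v : List Bool, v.length ≤ e * Nat.log 2 n → ∀ l ≤ n ^ e,
      n ^ (e + 1) * Nat.card {z : Zt n l //
        Hit (hyb XO r ρ j) c (ch z.1.1.1 z.1.2.1) (v ++ z.2.1) (n ^ e) (pre ρ (r (j + 1)))} ≤
      4 ^ n * 2 ^ l

theorem good_congr {XO : Lang} {b : ℕ → ℕ} {r : ℕ → ℕ} (hr : StrictMono r)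
    {ch : List Bool → List Bool → List Bool} {j : ℕ} {ρ ρ' : ℕ → Bool}
    (h : ∀ m < r (j + 1), ρ m = ρ' m) (hG : Good XO r b ch j ρ) : Good XO r b ch j ρ' := by
  have h1 : hyb XO r ρ j = hyb XO r ρ' j := hyb_congr hr fun m hm =>
    h m (lt_of_lt_of_le hm (hr.monotone (Nat.le_succ j)))
  have h2 : pre ρ (r (j + 1)) = pre ρ' (r (j + 1)) := pre_congr h
  unfold Good at hG ⊢
  rw [← h1, ← h2]
  exact hG

/-- replace a block -/
def repl (r : ℕ → ℕ) (j : ℕ) (ρ : ℕ → Bool) (y : List Bool) : ℕ → Bool := fun i =>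
  if i < r j then ρ i else y.getD (i - r j) false

theorem repl_low {r : ℕ → ℕ} {j : ℕ} {ρ : ℕ → Bool} {y : List Bool} :
    ∀ m < r j, repl r j ρ y m = ρ m := by
  intro m hm
  unfold repl
  rw [if_pos hm]

theorem pre_repl {r : ℕ → ℕ} {j : ℕ} {ρ : ℕ → Bool} {y : List Bool} {m : ℕ}
    (hy : y.length = m) : pre (repl r j ρ y) (r j + m) = pre ρ (r j) ++ y := by
  have h1 : ∀ i ≤ m, pre (repl r j ρ y) (r j + i) = pre ρ (r j) ++ y.take i := by
    intro i
    induction i with
    | zero =>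
      intro _
      rw [Nat.add_zero, List.take_zero, List.append_nil]
      exact pre_congr fun m hm => repl_low m hm
    | succ i ih =>
      intro hi
      rw [← Nat.add_assoc, pre_succ, ih (by omega), List.append_assoc]
      congr 1
      rw [List.take_succ_eq_append_getElem (by omega)]
      congr 1
      unfold repl
      rw [if_neg (by omega), Nat.add_sub_cancel_left, List.getD_eq_getElem _ _ (by omega)]
  rw [h1 m le_rfl, ← hy, List.take_length]

theorem exists_block {XO : Lang} {b : ℕ → ℕ} (hb : ∀ k, b k ≤ k)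
    (ch : List Bool → List Bool → List Bool) (j : ℕ) (ρ : ℕ → Bool) :
    ∃ ρ' : ℕ → Bool, (∀ m < rr b j, ρ' m = ρ m) ∧ Good XO (rr b) b ch j ρ' := by
  classical
  set m := (b j + 1) * 2 ^ (j + 2) with hm
  have hrm : rr b (j + 1) = rr b j + m := by rw [rr]
  by_cases hb2 : 2 ≤ b j
  swap
  · exact ⟨ρ, fun _ _ => rfl, fun c e _ he => absurd he (by omega)⟩
  set E := (b j - 2) / 4 with hE
  set L := E * 2 ^ (j + 2) with hL
  set H := hyb XO (rr b) ρ j with hH
  have hfin : ({w : List Bool | w.length ≤ L}).Finite := List.finite_length_le Bool L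
  set I : Finset (ℕ × ℕ × ℕ × List Bool × ℕ) := (Finset.range (b j + 1)) ×ˢ
    ((Finset.range (E + 1)) ×ˢ ((Finset.range (N (j + 2))) ×ˢ
    (hfin.toFinset ×ˢ (Finset.range (N (j + 2) ^ E + 1))))) with hI
  set Bad : (ℕ × ℕ × ℕ × List Bool × ℕ) → X m → Prop := fun i y =>
    1 ≤ i.2.2.1 ∧ Fintype.card (Zt i.2.2.1 i.2.2.2.2) < i.2.2.1 ^ (i.2.1 + 1) *
      Nat.card {z : Zt i.2.2.1 i.2.2.2.2 //
        Hit H ((Encodable.decode i.1).getD Cmd.skip) (ch z.1.1.1 z.1.2.1) (i.2.2.2.1 ++ z.2.1)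
          (i.2.2.1 ^ i.2.1) (pre ρ (rr b j) ++ y.1)} with hBad
  have hcardI : I.card ≤ (b j + 1) * ((E + 1) * (N (j + 2) * (2 ^ (L + 1) *
      (N (j + 2) ^ E + 1)))) := by
    rw [hI, Finset.card_product, Finset.card_product, Finset.card_product, Finset.card_product,
      Finset.card_range, Finset.card_range, Finset.card_range, Finset.card_range]
    gcongr
    have h1 := (TD.card_str L).2
    rwa [Set.ncard_eq_toFinset_card _ hfin] at h1
  have hM : ∀ i ∈ I, Nat.card {y // Bad i y} ≤ N (j + 2) ^ (2 * E + 1) := by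
    rintro ⟨a, e, n, v, l⟩ hi
    rw [hI, Finset.mem_product, Finset.mem_product, Finset.mem_product, Finset.mem_product] at hi
    obtain ⟨_, h2, h3, _, _⟩ := hi
    simp only [Finset.mem_range] at h2 h3
    by_cases hn : 1 ≤ n
    · have h4 := bad_card (Y := X m) (Z := Zt n l) (fun y z =>
        Hit H ((Encodable.decode a).getD Cmd.skip) (ch z.1.1.1 z.1.2.1) (v ++ z.2.1)
          (n ^ e) (pre ρ (rr b j) ++ y.1)) (n ^ e) (n ^ (e + 1)) (fun z => by
        refine (hit_card (pre ρ (rr b j)) m _).trans ?_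
        rw [List.length_map]
        exact asked_length _ _ _ _ _)
      have h5 : n ^ (e + 1) * n ^ e ≤ N (j + 2) ^ (2 * E + 1) := by
        calc n ^ (e + 1) * n ^ e = n ^ (2 * e + 1) := by rw [← pow_add]; congr 1; ring
          _ ≤ N (j + 2) ^ (2 * e + 1) := Nat.pow_le_pow_left h3.le _
          _ ≤ _ := Nat.pow_le_pow_right (N_pos _) (by omega)
      refine le_trans ?_ (h4.trans h5)
      apply Nat.card_le_card_of_injective (fun y : {y // Bad (a, e, n, v, l) y} =>
        (⟨y.1, y.2.2⟩ : {y : X m // Fintype.card (Zt n l) < n ^ (e + 1) *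
          Nat.card {z : Zt n l // Hit H ((Encodable.decode a).getD Cmd.skip)
            (ch z.1.1.1 z.1.2.1) (v ++ z.2.1) (n ^ e) (pre ρ (rr b j) ++ y.1)}}))
      intro y y' hyy
      simp only [Subtype.mk.injEq] at hyy
      exact Subtype.ext hyy
    · have : IsEmpty {y // Bad (a, e, n, v, l) y} := ⟨fun y => hn y.2.1⟩
      rw [Nat.card_of_isEmpty]
      exact Nat.zero_le _
  have hlt : I.card * N (j + 2) ^ (2 * E + 1) < Fintype.card (X m) := by
    rw [card_X]
    have h1 : 2 ^ (L + 1) = 2 * N (j + 2) ^ E := by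
      rw [hL, pow_succ, mul_comm E, pow_mul, mul_comm]
      rfl
    have h2 : (2 : ℕ) ^ m = N (j + 2) ^ (b j + 1) := by
      rw [hm, mul_comm, pow_mul]
      rfl
    have h3 : E + 1 ≤ b j + 1 := by omega
    have h4 : 4 * E + 2 ≤ b j := by omega
    have h5 : N (j + 2) ^ E + 1 ≤ 2 * N (j + 2) ^ E := by
      have : 1 ≤ N (j + 2) ^ E := Nat.one_le_pow _ _ (N_pos _)
      omega
    rw [h2]
    calc I.card * N (j + 2) ^ (2 * E + 1)
        ≤ (b j + 1) * ((b j + 1) * (N (j + 2) * (2 * N (j + 2) ^ E * (2 * N (j + 2) ^ E)))) *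
            N (j + 2) ^ (2 * E + 1) := by
          refine Nat.mul_le_mul_right _ (hcardI.trans ?_)
          rw [h1]
          gcongr
      _ = 4 * (b j + 1) ^ 2 * N (j + 2) ^ (4 * E + 2) := by ring
      _ < N (j + 2) * N (j + 2) ^ (4 * E + 2) :=
          Nat.mul_lt_mul_of_pos_right (union_num (hb j) (by omega)) (pow_pos (N_pos _) _)
      _ ≤ N (j + 2) * N (j + 2) ^ b j :=
          Nat.mul_le_mul_left _ (Nat.pow_le_pow_right (N_pos _) h4)
      _ = _ := by rw [pow_succ, mul_comm]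
  obtain ⟨y, hy⟩ := exists_good I Bad _ hM hlt
  refine ⟨repl (rr b) j ρ y.1, repl_low, ?_⟩
  have h1 : hyb XO (rr b) (repl (rr b) j ρ y.1) j = H := by
    rw [hH]
    exact hyb_congr (rr_mono b) repl_low
  have h2 : pre (repl (rr b) j ρ y.1) (rr b (j + 1)) = pre ρ (rr b j) ++ y.1 := by
    rw [hrm]
    exact pre_repl y.2
  intro c e hc he n hn1 hn2 v hv l hl
  rw [h1, h2]
  have hn0 : 1 ≤ n := (N_pos _).trans_le hn1
  have h3 := hy (Encodable.encode c, e, n, v, l) (by
    rw [hI, Finset.mem_product, Finset.mem_product, Finset.mem_product, Finset.mem_product]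
    simp only [Finset.mem_range]
    refine ⟨by omega, by omega, hn2, ?_, ?_⟩
    swap
    · have h5 : n ^ e ≤ N (j + 2) ^ E :=
        (Nat.pow_le_pow_left hn2.le e).trans (Nat.pow_le_pow_right (N_pos _) (by omega))
      omega
    rw [Set.Finite.mem_toFinset]
    show v.length ≤ L
    have h4 : Nat.log 2 n ≤ 2 ^ (j + 2) := by
      have : Nat.log 2 n < 2 ^ (j + 2) := Nat.log_lt_of_lt_pow (by omega) hn2
      omega
    calc v.length ≤ e * Nat.log 2 n := hv
      _ ≤ E * 2 ^ (j + 2) := Nat.mul_le_mul (by omega) h4)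
  simp only [hBad, Encodable.encodek, Option.getD_some, not_and, not_lt] at h3
  have h4 := h3 hn0
  rw [card_Zt] at h4
  exact h4

/-- The secret sequence. -/
theorem exists_rho (XO : Lang) {b : ℕ → ℕ} (hb : ∀ k, b k ≤ k)
    (ch : List Bool → List Bool → List Bool) : ∃ ρ : ℕ → Bool, ∀ j, Good XO (rr b) b ch j ρ :=
  exists_seq (rr_mono b) (fun j ρ => Good XO (rr b) b ch j ρ)
    (fun _ _ _ h hG => good_congr (rr_mono b) h hG) fun j ρ => exists_block hb ch j ρ

end Pool.Agent.PCW
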