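import Pool.Agent.Lib_helper74.CKF.Defs

/-!
# Definitions for MP_5d94c0_lc: few adaptive queries, probabilistic adversaries
-/

set_option autoImplicit false

namespace Pool.Agent.PCW

open Pool.Agent.CK

/-- `D` reduces to `L`, relative to `O`, by a polynomial time Turing reduction with at most
`s |x|` adaptive queries (for all but finitely many `x`).  The program `c` gets `x` and the answers
of `L` to the previous queries (on stack `1`).  Its output is `1 y` if the next query is `y`, and
`0 b` if the result is `b`.  So `a i` consists of the answers to the first `i` queries, and `m` is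
the number of queries.  The program has access to `O`, but not to `L`. -/
def FewQueriesReducible (O D L : Lang) (s : ℕ → ℕ) : Prop :=
  ∃ (c : Cmd) (k n0 : ℕ), ∀ x : List Bool, ∃ (m : ℕ) (a : ℕ → List Bool),
    m ≤ (x.length + 2) ^ k ∧ (n0 ≤ x.length → m ≤ s x.length) ∧ a 0 = [] ∧
    (∀ i ≤ m, Halts O c x (a i) ((x.length + 2) ^ k)) ∧
    (∀ i < m, ∃ y, (run O c x (a i) ((x.length + 2) ^ k)).2 0 = true :: y ∧
      a (i + 1) = a i ++ [L y]) ∧
    (run O c x (a m) ((x.length + 2) ^ k)).2 0 = [false, D x]

/-- Security of `G`, `F` against probabilistic polynomial time: let `c` be a program, `e` an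
exponent, `n` large, `v` an advice string of length at most `e log n`, and `l`, `t ≤ n ^ e`.  For at
most a fraction `1 / n ^ e` of all `(td, x, w)`, where `td` and `x` have length `n` and `w` is a
string of `l` random bits, the output of `c` with oracle `O` on the input `G(td) F(G(td) x)` and
`v w` after `t` steps is `x`. -/
def SecurePPT (O : Lang) (G F : List Bool → List Bool) : Prop :=
  ∀ (c : Cmd) (e : ℕ), ∀ᶠ n : ℕ in Filter.atTop, ∀ v : List Bool, v.length ≤ e * Nat.log 2 n →
    ∀ l ≤ n ^ e, ∀ t ≤ n ^ e,
      n ^ e * Nat.card {p : List Bool × List Bool × List Bool // p.1.length = n ∧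
        p.2.1.length = n ∧ p.2.2.length = l ∧
        (run O c (G p.1 ++ F (G p.1 ++ p.2.1)) (v ++ p.2.2) t).2 0 = p.2.1} ≤ 4 ^ n * 2 ^ l

/-- A function in `FP^O` excludes one of the four possible values of `(S x, S y)`. -/
def PairApproximable (O S : Lang) : Prop :=
  ∃ (c : Cmd) (k : ℕ), ∀ x y : List Bool,
    Halts O c x y ((x.length + y.length + 2) ^ k) ∧
      ∃ p q : Bool, (run O c x y ((x.length + y.length + 2) ^ k)).2 0 = [p, q] ∧
        ¬ (S x = p ∧ S y = q)

end Pool.Agent.PCW
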