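import Pool.Agent.Lib_helper78.PCW.D
import Pool.Agent.Lib_helper78.PCL.C

/-!
# Simulation of the hybrids with a table (MP_5d94c0_lc)
-/

set_option autoImplicit false
set_option linter.unusedSectionVars false

namespace Pool.Agent.PCW

open Pool.Agent.CK Pool.Agent.CKP Pool.Agent.PSL

variable {P : Lang} {γ : Type} [ToD γ]

theorem toList_nil_iff (d : D) : toList d = [] ↔ d = D.nil := by
  have h := toD_toList d
  constructor
  · intro h'
    rw [h'] at h
    exact h.symm
  · rintro rfl
    rfl

theorem ptime_isA {q : γ → List Bool} (hq : PTime P q) : PTime P (fun a => isA (q a)) := by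
  refine (PTime.isNil (PTime.dec hq).car.toList).of_eq fun a => ?_
  unfold isA
  rw [Bool.eq_iff_iff, List.isEmpty_iff, decide_eq_true_eq, toList_nil_iff]

theorem ptime_qw {q : γ → List Bool} (hq : PTime P q) : PTime P (fun a => qw (q a)) :=
  (PTime.dec hq).car.cdr.toBits

theorem ptime_lenle {α β : Type} [ToD α] [ToD β] {f : γ → List α} {g : γ → List β}
    (hf : PTime P f) (hg : PTime P g) :
    PTime P (fun a => decide ((f a).length ≤ (g a).length)) :=
  (PTime.length hf).nat_le (PTime.length hg)

theorem ptime_pw {q : γ → List Bool} (hq : PTime P q) : PTime P (fun a => pw (q a)) := by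
  have h1 : PTime P (fun a => toBits (dec (q a)).cdr) := (PTime.dec hq).cdr.toBits
  refine (PTime.ite (ptime_lenle h1 hq) h1 (PTime.const [])).of_eq fun a => ?_
  unfold pw
  by_cases h : (toBits (dec (q a)).cdr).length ≤ (q a).length
  · simp [h]
  · simp [h]

/-- `8 * |w| + 8 ≤ |l|` -/
theorem ptime_eight {α : Type} [ToD α] {w : γ → List Bool} {l : γ → List α}
    (hw : PTime P w) (hl : PTime P l) :
    PTime P (fun a => decide (8 * (w a).length + 8 ≤ (l a).length)) := by
  have h := (((UPoly.const (O := P) 8).mul UPoly.id).add (UPoly.const 8)).comp hw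
  refine (ptime_lenle h hl).of_eq fun a => ?_
  rw [List.length_replicate]

/-- the oracle given by tables -/
def tabO (XO : Lang) (A B : List D) (q : List Bool) : Bool :=
  lcase q false fun a t => if a = true then
    A.any (fun d => (decide (pw q = toBits d.car) && decide ((toList d.cdr).length ≤ q.length)) &&
      (isA q || (decide (8 * (qw q).length + 8 ≤ (toList d.cdr).length) &&
        B.any fun d' => decide (toBits d' = qw q)))) else XO t

theorem ptime_tabO {XO : Lang} (hX : PTime P XO) {A B : γ → List D} (hA : PTime P A)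
    (hB : PTime P B) : PTime P (fun p : γ × List Bool => tabO XO (A p.1) (B p.1) p.2) := by
  unfold tabO
  refine PTime.lcase (l := fun p : γ × List Bool => p.2) (n := fun _ => false)
    (c := fun p a t => if a = true then
    (A p.1).any (fun d => (decide (pw p.2 = toBits d.car) &&
      decide ((toList d.cdr).length ≤ p.2.length)) &&
      (isA p.2 || (decide (8 * (qw p.2).length + 8 ≤ (toList d.cdr).length) &&
        (B p.1).any fun d' => decide (toBits d' = qw p.2)))) else XO t)
    PTime.id.snd (PTime.const false) ?_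
  refine PTime.ite PTime.id.snd.fst ?_ (hX.comp PTime.id.snd.snd)
  refine PTime.any (l := fun p : (γ × List Bool) × Bool × List Bool => A p.1.1)
    (f := fun p d => (decide (pw p.1.2 = toBits d.car) &&
      decide ((toList d.cdr).length ≤ p.1.2.length)) &&
      (isA p.1.2 || (decide (8 * (qw p.1.2).length + 8 ≤ (toList d.cdr).length) &&
        (B p.1.1).any fun d' => decide (toBits d' = qw p.1.2)))) (hA.comp PTime.id.fst.fst) ?_
  have hq : PTime P (fun p : ((γ × List Bool) × Bool × List Bool) × D => p.1.1.2) :=
    PTime.id.fst.fst.snd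
  have hd : PTime P (fun p : ((γ × List Bool) × Bool × List Bool) × D => p.2) := PTime.id.snd
  have hd2 := hd.cdr.toList
  refine ((TD.ptime_list_eq (ptime_pw hq) hd.car.toBits).and (ptime_lenle hd2 hq)).and
    ((ptime_isA hq).or ((ptime_eight (ptime_qw hq) hd2).and ?_))
  exact PTime.any (l := fun p : ((γ × List Bool) × Bool × List Bool) × D => B p.1.1.1)
    (f := fun p d' => decide (toBits d' = qw p.1.1.2)) (hB.comp PTime.id.fst.fst.fst)
    (TD.ptime_list_eq PTime.id.snd.toBits (ptime_qw (hq.comp PTime.id.fst)))

/-- the advice -/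
def adv (w : List Bool) (t : ℕ) (A B : List D) : List Bool :=
  (D.cons (toD w) (.cons (tg t) (.cons (toD A) (toD B)))).enc

/-- Simulation with a table. -/
theorem sim (XO : Lang) (c : Cmd) : ∃ (c' : Cmd) (κ : ℕ), ∀ (x w : List Bool) (t : ℕ)
    (A B : List D), (run XO c' x (adv w t A B) ((x.length + (adv w t A B).length + 2) ^ κ)).2 0 =
      (run (tabO XO A B) c x w t).2 0 := by
  have hX : PTime XO XO := PTime.ask (O := XO) PTime.id
  have hd : PTime XO (fun p : List Bool × List Bool => dec p.2) := PTime.dec PTime.id.snd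
  have hg : PTime XO (fun p : List Bool × List Bool =>
      outU (tabO XO (toList (dec p.2).cdr.cdr.car) (toList (dec p.2).cdr.cdr.cdr)) (cmdD c)
        p.1 (toBits (dec p.2).car) (ulen (toList (dec p.2).cdr.car))) := by
    unfold outU
    exact PTime.headD (ptime_runG (O := XO) (γ := List Bool × List Bool)
      (P := fun p => tabO XO (toList (dec p.2).cdr.cdr.car) (toList (dec p.2).cdr.cdr.cdr))
      (ptime_tabO hX hd.cdr.cdr.car.toList hd.cdr.cdr.cdr.toList) (PTime.const (cmdD c))
      (PTime.cons PTime.id.fst (PTime.cons hd.car.toBits (PTime.const [])))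
      hd.cdr.car.toList.ulen).snd (PTime.const [])
  obtain ⟨c', κ, h⟩ := two_inputs hg
  refine ⟨c', κ, fun x w t A B => ?_⟩
  rw [(h x (adv w t A B)).2]
  have e : dec (adv w t A B) = D.cons (toD w) (.cons (tg t) (.cons (toD A) (toD B))) := dec_enc _
  simp only [e]
  have e1 : toBits (D.cons (toD w) (.cons (tg t) (.cons (toD A) (toD B)))).car = w := toBits_toD w
  have e2 : toList (D.cons (toD w) (.cons (tg t) (.cons (toD A) (toD B)))).cdr.cdr.car = A := by
    show toList (toD A) = A
    rw [toList_toD]
    exact List.map_id A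
  have e3 : toList (D.cons (toD w) (.cons (tg t) (.cons (toD A) (toD B)))).cdr.cdr.cdr = B := by
    show toList (toD B) = B
    rw [toList_toD]
    exact List.map_id B
  have e4 : (ulen (toList (D.cons (toD w) (.cons (tg t) (.cons (toD A) (toD B)))).cdr.car)).length
      = t := by
    show (ulen (toList (tg t))).length = t
    rw [ulen_eq, List.length_replicate, toList_tg]
  rw [e1, e2, e3, outU_eq, e4]

/-! ### the tables of the hybrids -/

/-- the passwords up to scale `j` -/
def tA (r : ℕ → ℕ) (ρ : ℕ → Bool) (j : ℕ) : List D :=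
  (List.range (j + 1)).map fun i => D.cons (toD (pre ρ (r i))) (tg (N i))

/-- strings with `8 * |w| + 8 ≤ n` -/
theorem finite_short (n : ℕ) : ({w : List Bool | 8 * w.length + 8 ≤ n}).Finite :=
  (List.finite_length_le Bool n).subset fun w (hw : 8 * w.length + 8 ≤ n) => by
    show w.length ≤ n
    omega

open Classical in
/-- the positive answers up to scale `j` -/
noncomputable def tB (H : Lang) (j : ℕ) : List D :=
  (((finite_short (N j)).toFinset.filter fun w => K H w = true).toList).map fun w => toD w

theorem mem_tB {H : Lang} {j : ℕ} {w : List Bool} :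
    ((tB H j).any fun d' => decide (toBits d' = w)) = true ↔
      8 * w.length + 8 ≤ N j ∧ K H w = true := by
  classical
  rw [List.any_eq_true]
  unfold tB
  constructor
  · rintro ⟨d, hd, hw⟩
    rw [List.mem_map] at hd
    obtain ⟨w', hw', rfl⟩ := hd
    rw [decide_eq_true_eq, toBits_toD] at hw
    subst hw
    rw [Finset.mem_toList, Finset.mem_filter, Set.Finite.mem_toFinset] at hw'
    exact hw'
  · rintro ⟨h1, h2⟩
    refine ⟨toD w, ?_, ?_⟩
    · rw [List.mem_map]
      refine ⟨w, ?_, rfl⟩
      rw [Finset.mem_toList, Finset.mem_filter, Set.Finite.mem_toFinset]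
      exact ⟨h1, h2⟩
    · rw [decide_eq_true_eq, toBits_toD]

/-- The hybrids are given by tables. -/
theorem hyb_eq_tab (XO : Lang) (r : ℕ → ℕ) (ρ : ℕ → Bool) (j : ℕ) :
    hyb XO r ρ j = tabO XO (tA r ρ j) (tB (hyb XO r ρ j) j) := by
  funext q
  by_cases hh : q.head? = some false
  · match q, hh with
    | false :: v, _ =>
      show orcl XO r ρ _ (false :: v) = _
      rw [orcl_false]
      rfl
  · match q, hh with
    | [], hh =>
      show orcl XO r ρ _ [] = false
      rw [← Bool.not_eq_true, orcl_key hh]
      rintro ⟨i, _, _, h, _⟩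
      have := N_pos i
      simp only [List.length_nil] at h
      omega
    | true :: v, hh =>
      set q := true :: v with hq
      have e1 : tabO XO (tA r ρ j) (tB (hyb XO r ρ j) j) q = (tA r ρ j).any (fun d =>
        (decide (pw q = toBits d.car) && decide ((toList d.cdr).length ≤ q.length)) &&
          (isA q || (decide (8 * (qw q).length + 8 ≤ (toList d.cdr).length) &&
          (tB (hyb XO r ρ j) j).any fun d' => decide (toBits d' = qw q)))) := by
        rw [hq]
        unfold tabO
        rw [lcase_cons, if_pos rfl]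
      rw [e1, Bool.eq_iff_iff]
      show orcl XO r ρ _ q = true ↔ _
      rw [orcl_key hh, List.any_eq_true]
      show keyed r ρ (fun i => i ≤ j) (hyb XO r ρ j) q ↔ _
      constructor
      · rintro ⟨i, hi, h1, h2, h3⟩
        refine ⟨D.cons (toD (pre ρ (r i))) (tg (N i)), ?_, ?_⟩
        · unfold tA
          rw [List.mem_map]
          exact ⟨i, List.mem_range.2 (by omega), rfl⟩
        · have g1 : toBits (D.cons (toD (pre ρ (r i))) (tg (N i))).car = pre ρ (r i) :=
            toBits_toD _
          have g2 : (toList (D.cons (toD (pre ρ (r i))) (tg (N i))).cdr).length = N i :=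
            toList_tg _
          rw [g1, g2, Bool.and_eq_true, Bool.and_eq_true, Bool.or_eq_true, Bool.and_eq_true,
            decide_eq_true_eq, decide_eq_true_eq, decide_eq_true_eq, mem_tB]
          refine ⟨⟨h1, h2⟩, ?_⟩
          rcases h3 with h3 | ⟨h3, h4⟩
          · exact Or.inl h3
          · exact Or.inr ⟨h3, h3.trans (N_mono hi), h4⟩
      · rintro ⟨d, hd, h⟩
        unfold tA at hd
        rw [List.mem_map] at hd
        obtain ⟨i, hi, rfl⟩ := hd
        have g1 : toBits (D.cons (toD (pre ρ (r i))) (tg (N i))).car = pre ρ (r i) :=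
          toBits_toD _
        have g2 : (toList (D.cons (toD (pre ρ (r i))) (tg (N i))).cdr).length = N i :=
          toList_tg _
        rw [g1, g2, Bool.and_eq_true, Bool.and_eq_true, Bool.or_eq_true, Bool.and_eq_true,
          decide_eq_true_eq, decide_eq_true_eq, decide_eq_true_eq, mem_tB] at h
        obtain ⟨⟨h1, h2⟩, h3⟩ := h
        refine ⟨i, by have := List.mem_range.1 hi; omega, h1, h2, ?_⟩
        rcases h3 with h3 | ⟨h3, _, h4⟩
        · exact Or.inl h3
        · exact Or.inr ⟨h3, h4⟩

end Pool.Agent.PCW
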