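import Pool.Agent.Lib_helper78.PCW.E
import Pool.Agent.Lib_helper78.PCW.Defs
import Pool.Agent.Lib_helper64.TD.Notions

/-!
# Security of the trapdoor permutations (MP_5d94c0_lc)
-/

set_option autoImplicit false
set_option linter.unusedSectionVars false

namespace Pool.Agent.PCW

open Pool.Agent.CK Pool.Agent.CKP Pool.Agent.PSL

/-! ### numbers -/

theorem sq_le_two_pow (m : ℕ) (hm : 6 ≤ m) : (m + 1) ^ 2 ≤ 2 ^ m := by
  induction m, hm using Nat.le_induction with
  | base => norm_num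
  | succ m hm ih =>
    have h : (2 : ℕ) ^ (m + 1) = 2 * 2 ^ m := by ring
    nlinarith

theorem log_le_sqrt {n : ℕ} (hn : 64 ≤ n) : Nat.log 2 n + 1 ≤ Nat.sqrt n := by
  rw [Nat.le_sqrt']
  have h1 : 2 ^ Nat.log 2 n ≤ n := Nat.pow_log_le_self 2 (by omega)
  have h2 : 6 ≤ Nat.log 2 n := by
    have : Nat.log 2 64 ≤ Nat.log 2 n := Nat.log_mono_right hn
    have h3 : Nat.log 2 64 = 6 := by
      rw [show (64 : ℕ) = 2 ^ 6 by norm_num]
      exact Nat.log_pow (by norm_num) 6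
    omega
  exact (sq_le_two_pow _ h2).trans h1

theorem num_ev (A B : ℕ) : ∀ᶠ n : ℕ in Filter.atTop, n ^ B * 2 ^ (A * Nat.sqrt n) ≤ 2 ^ (n / 5) := by
  filter_upwards [Filter.eventually_ge_atTop ((10 * (A + B + 1)) ^ 2 + 64)] with n hn
  have h1 : 10 * (A + B + 1) ≤ Nat.sqrt n := by
    rw [Nat.le_sqrt']
    omega
  have h2 := log_le_sqrt (by omega : 64 ≤ n)
  have h3 : n ≤ 2 ^ (Nat.log 2 n + 1) := (Nat.lt_pow_succ_log_self (by norm_num) n).le
  have h4 : n ^ B ≤ 2 ^ (Nat.sqrt n * B) := by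
    calc n ^ B ≤ (2 ^ (Nat.log 2 n + 1)) ^ B := Nat.pow_le_pow_left h3 B
      _ = 2 ^ ((Nat.log 2 n + 1) * B) := by rw [← pow_mul]
      _ ≤ _ := Nat.pow_le_pow_right (by norm_num) (Nat.mul_le_mul_right B h2)
  have h5 : Nat.sqrt n * Nat.sqrt n ≤ n := Nat.sqrt_le n
  have h6 : Nat.sqrt n * B + A * Nat.sqrt n ≤ n / 5 := by
    rw [Nat.le_div_iff_mul_le (by norm_num)]
    have h7 : (Nat.sqrt n * B + A * Nat.sqrt n) * 5 = Nat.sqrt n * (5 * (A + B)) := by ring
    rw [h7]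
    exact (Nat.mul_le_mul_left _ (by omega)).trans h5
  calc n ^ B * 2 ^ (A * Nat.sqrt n) ≤ 2 ^ (Nat.sqrt n * B) * 2 ^ (A * Nat.sqrt n) :=
        Nat.mul_le_mul_right _ h4
    _ = 2 ^ (Nat.sqrt n * B + A * Nat.sqrt n) := by rw [← pow_add]
    _ ≤ _ := Nat.pow_le_pow_right (by norm_num) h6

/-! ### the size of the advice -/

theorem sz_tA {r : ℕ → ℕ} (hr : StrictMono r) {ρ : ℕ → Bool} {j : ℕ} (hrN : r j ≤ 4 * N j) :
    sz (tA r ρ j) ≤ N j * (18 * N j + 4) + 1 := by
  have h1 : ∀ d ∈ tA r ρ j, sz d ≤ 18 * N j + 3 := by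
    intro d hd
    unfold tA at hd
    rw [List.mem_map] at hd
    obtain ⟨i, hi, rfl⟩ := hd
    have hij : i ≤ j := by have := List.mem_range.1 hi; omega
    show (toD (pre ρ (r i))).size + (tg (N i)).size + 1 ≤ _
    have h2 := size_bits (pre ρ (r i))
    rw [pre_length] at h2
    have h3 : r i ≤ r j := hr.monotone hij
    have h4 := N_mono hij
    rw [size_tg]
    omega
  have h2 := sz_list_le _ h1
  have h3 : (tA r ρ j).length = j + 1 := by
    unfold tA
    rw [List.length_map, List.length_range]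
  rw [h3] at h2
  have h4 : j + 1 ≤ N j := k_lt_N j
  have h5 : (j + 1) * (18 * N j + 3 + 1) ≤ N j * (18 * N j + 4) := Nat.mul_le_mul h4 (by omega)
  omega

theorem sz_tB (H : Lang) (j : ℕ) : sz (tB H j) ≤ 2 ^ N j * (4 * N j + 2) + 1 := by
  classical
  have h1 : ∀ d ∈ tB H j, sz d ≤ 4 * N j + 1 := by
    intro d hd
    unfold tB at hd
    rw [List.mem_map] at hd
    obtain ⟨w, hw, rfl⟩ := hd
    rw [Finset.mem_toList, Finset.mem_filter, Set.Finite.mem_toFinset] at hw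
    have h2 : 8 * w.length + 8 ≤ N j := hw.1
    have h3 := size_bits w
    show (toD w).size ≤ _
    omega
  have h2 := sz_list_le _ h1
  have h3 : (tB H j).length ≤ 2 ^ N j := by
    unfold tB
    rw [List.length_map, Finset.length_toList]
    refine (Finset.card_filter_le _ _).trans ?_
    have hN := N_pos j
    have h4 := (TD.card_str (N j - 1)).2
    rw [show N j - 1 + 1 = N j by omega] at h4
    refine le_trans ?_ h4
    rw [← Set.ncard_eq_toFinset_card _ (finite_short (N j))]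
    apply Set.ncard_le_ncard
    · intro w hw
      have h5 : 8 * w.length + 8 ≤ N j := hw
      show w.length ≤ N j - 1
      omega
    · exact (TD.card_str (N j - 1)).1
  have h4 : (tB H j).length * (4 * N j + 1 + 1) ≤ 2 ^ N j * (4 * N j + 2) :=
    Nat.mul_le_mul h3 (by omega)
  omega

theorem adv_length {r : ℕ → ℕ} (hr : StrictMono r) {ρ : ℕ → Bool} {j : ℕ}
    (hrN : r j ≤ 4 * N j) (H : Lang) (w : List Bool) (t : ℕ) :
    (adv w t (tA r ρ j) (tB H j)).length ≤ 4 * w.length + 2 * t + 40 * 2 ^ (2 * N j) := by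
  unfold adv
  rw [D.enc_length]
  have h1 := size_bits w
  have h2 := sz_tA (ρ := ρ) hr hrN
  have h3 := sz_tB H j
  have h4 : (D.cons (toD w) (.cons (tg t) (.cons (toD (tA r ρ j)) (toD (tB H j))))).size =
      (toD w).size + ((tg t).size + (sz (tA r ρ j) + sz (tB H j) + 1) + 1) + 1 := rfl
  rw [h4, size_tg]
  have h5 : N j ≤ 2 ^ N j := (Nat.lt_two_pow_self).le
  have h6 : (2 : ℕ) ^ (2 * N j) = 2 ^ N j * 2 ^ N j := by rw [← pow_add]; congr 1; ring
  have h7 : 1 ≤ 2 ^ N j := Nat.one_le_two_pow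
  rw [h6]
  have h8 : N j * (18 * N j + 4) ≤ 22 * (2 ^ N j * 2 ^ N j) := by nlinarith
  have h9 : 2 ^ N j * (4 * N j + 2) ≤ 6 * (2 ^ N j * 2 ^ N j) := by nlinarith
  have h10 : 1 ≤ 2 ^ N j * 2 ^ N j := Nat.one_le_iff_ne_zero.2 (by positivity)
  omega

/-! ### security of the hybrids -/

/-- the challenge -/
def chg (G F : List Bool → List Bool) (td x : List Bool) : List Bool := G td ++ F (G td ++ x)

theorem chg_length {O : Lang} {G F K : List Bool → List Bool}
    (h : TD.TrapdoorPermutations O G F K) {n : ℕ} {td x : List Bool} (h1 : td.length = n)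
    (h2 : x.length = n) : (chg G F td x).length = 2 * n := by
  have g1 : (G td).length = n := (h.bij_G n).mapsTo h1
  have g2 : (F (G td ++ x)).length = n := by
    have := (h.bij_F (G td)).mapsTo (show x ∈ {x : List Bool | x.length = (G td).length} by
      show x.length = (G td).length
      rw [g1, h2])
    rw [← g1]
    exact this
  unfold chg
  rw [List.length_append, g1, g2]
  ring

theorem hyb_secure {XO : Lang} {G F K : List Bool → List Bool}
    (hT : TD.TrapdoorPermutations XO G F K) (hS : TD.Secure XO G F fun n => 2 ^ (n / 5))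
    {r : ℕ → ℕ} (hr : StrictMono r) (hrN : ∀ j, r j ≤ 4 * N j) (ρ : ℕ → Bool) (c : Cmd)
    (e : ℕ) : ∀ᶠ n : ℕ in Filter.atTop, ∀ j, N (j + 1) ≤ n → ∀ w : List Bool,
      w.length ≤ e * Nat.log 2 n + n ^ e → ∀ t ≤ n ^ e,
      2 ^ (n / 5) * Nat.card {p : List Bool × List Bool // p.1.length = n ∧ p.2.length = n ∧
        (run (hyb XO r ρ j) c (chg G F p.1 p.2) w t).2 0 = p.2} < 4 ^ n := by
  obtain ⟨c', κ, hsim⟩ := sim XO c
  filter_upwards [hS c', num_ev (2 * (κ + 1)) ((e + 2) * (κ + 1)),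
    Filter.eventually_ge_atTop (4 * e + 60)] with n h1 h2 h3 j hj w hw t ht
  set w' := adv w t (tA r ρ j) (tB (hyb XO r ρ j) j) with hw'
  have hNj : N j ≤ Nat.sqrt n := by
    rw [Nat.le_sqrt]
    rw [← N_succ]
    exact hj
  have hlen := adv_length (ρ := ρ) hr (hrN j) (hyb XO r ρ j) w t
  rw [← hw'] at hlen
  have hn1 : 1 ≤ n := by omega
  have hlog : Nat.log 2 n ≤ n := Nat.log_le_self 2 n
  have htot : 2 * n + w'.length + 2 ≤ n ^ (e + 2) * 2 ^ (2 * Nat.sqrt n) := by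
    have g1 : (2 : ℕ) ^ (2 * N j) ≤ 2 ^ (2 * Nat.sqrt n) :=
      Nat.pow_le_pow_right (by norm_num) (by omega)
    set Q := (2 : ℕ) ^ (2 * Nat.sqrt n) with hQ
    have g2 : 1 ≤ Q := Nat.one_le_two_pow
    have g3 : n ^ (e + 1) = n ^ e * n := pow_succ _ _
    have g4 : n ^ (e + 2) = n ^ (e + 1) * n := pow_succ _ _
    have g5 : 1 ≤ n ^ e := Nat.one_le_pow _ _ hn1
    have g6 : n ≤ n ^ (e + 1) := by rw [g3]; exact Nat.le_mul_of_pos_left _ g5
    have g7 : n ^ e ≤ n ^ (e + 1) := Nat.pow_le_pow_right hn1 (by omega)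
    have g8 : 2 * n + w'.length + 2 ≤ (4 * e + 60) * (n ^ (e + 1) * Q) := by
      have g9 : e * Nat.log 2 n ≤ e * n ^ (e + 1) := Nat.mul_le_mul_left _ (hlog.trans g6)
      have g10 : n ^ (e + 1) ≤ n ^ (e + 1) * Q := Nat.le_mul_of_pos_right _ g2
      have g11 : Q ≤ n ^ (e + 1) * Q := Nat.le_mul_of_pos_left _ (by omega)
      have g12 : (4 * e + 60) * (n ^ (e + 1) * Q) = 4 * (e * (n ^ (e + 1) * Q)) +
          60 * (n ^ (e + 1) * Q) := by ring
      have g13 : e * n ^ (e + 1) ≤ e * (n ^ (e + 1) * Q) := Nat.mul_le_mul_left _ g10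
      omega
    calc 2 * n + w'.length + 2 ≤ (4 * e + 60) * (n ^ (e + 1) * Q) := g8
      _ ≤ n * (n ^ (e + 1) * Q) := Nat.mul_le_mul_right _ h3
      _ = n ^ (e + 2) * Q := by rw [g4]; ring
  have hpow : (2 * n + w'.length + 2) ^ (κ + 1) ≤ 2 ^ (n / 5) := by
    refine (Nat.pow_le_pow_left htot (κ + 1)).trans (le_trans (le_of_eq ?_) h2)
    rw [mul_pow, ← pow_mul, ← pow_mul]
    congr 2
    ring
  have hA : w'.length ≤ 2 ^ (n / 5) := by
    refine le_trans ?_ hpow
    calc w'.length ≤ 2 * n + w'.length + 2 := by omega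
      _ ≤ _ := Nat.le_self_pow (by omega) _
  have hB : (2 * n + w'.length + 2) ^ κ ≤ 2 ^ (n / 5) :=
    (Nat.pow_le_pow_right (by omega) (by omega)).trans hpow
  have h4 := h1 w' hA _ hB
  refine lt_of_le_of_lt (Nat.mul_le_mul_left _ (le_of_eq ?_)) h4
  congr 1
  apply congrArg
  funext p
  apply propext
  apply and_congr_right
  intro hp1
  apply and_congr_right
  intro hp2
  have h5 := hsim (chg G F p.1 p.2) w t (tA r ρ j) (tB (hyb XO r ρ j) j)
  rw [← hyb_eq_tab, ← hw', chg_length hT hp1 hp2] at h5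
  rw [← h5]
  rfl

end Pool.Agent.PCW
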