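import Pool.Agent.Lib_helper78.PCW.F

/-!
# Security in the full world (MP_5d94c0_lc)
-/

set_option autoImplicit false
set_option linter.unusedSectionVars false

namespace Pool.Agent.PCW

open Pool.Agent.CK Pool.Agent.CKP Pool.Agent.PSL

/-- all pairs of challenges and random bits on which the hybrid adversary succeeds -/
theorem hyb_count {H : Lang} {G F : List Bool → List Bool} {c : Cmd} {n l t T : ℕ}
    {v : List Bool} (h : ∀ w : List Bool, w.length = l → T * Nat.card {p : List Bool × List Bool //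
      p.1.length = n ∧ p.2.length = n ∧
      (run H c (chg G F p.1 p.2) (v ++ w) t).2 0 = p.2} < 4 ^ n) :
    T * Nat.card {z : Zt n l //
      (run H c (chg G F z.1.1.1 z.1.2.1) (v ++ z.2.1) t).2 0 = z.1.2.1} ≤ 4 ^ n * 2 ^ l := by
  classical
  have h1 : ∀ w : X l, T * Nat.card {p : X n × X n //
      (run H c (chg G F p.1.1 p.2.1) (v ++ w.1) t).2 0 = p.2.1} ≤ 4 ^ n := by
    intro w
    refine le_trans (Nat.mul_le_mul_left _ ?_) (h w.1 w.2).le
    have hfin : Finite {p : List Bool × List Bool // p.1.length = n ∧ p.2.length = n ∧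
        (run H c (chg G F p.1 p.2) (v ++ w.1) t).2 0 = p.2} := by
      apply Set.Finite.subset ((List.finite_length_le Bool n).prod (List.finite_length_le Bool n))
      rintro ⟨a, b⟩ ⟨ha, hb, _⟩
      exact ⟨ha.le, hb.le⟩
    apply Nat.card_le_card_of_injective (fun p : {p : X n × X n //
      (run H c (chg G F p.1.1 p.2.1) (v ++ w.1) t).2 0 = p.2.1} =>
      (⟨(p.1.1.1, p.1.2.1), p.1.1.2, p.1.2.2, p.2⟩ : {p : List Bool × List Bool //
        p.1.length = n ∧ p.2.length = n ∧
        (run H c (chg G F p.1 p.2) (v ++ w.1) t).2 0 = p.2}))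
    intro p p' hpp
    simp only [Subtype.mk.injEq, Prod.mk.injEq] at hpp
    apply Subtype.ext
    exact Prod.ext (Subtype.ext hpp.1) (Subtype.ext hpp.2)
  have h2 : Nat.card {z : Zt n l //
      (run H c (chg G F z.1.1.1 z.1.2.1) (v ++ z.2.1) t).2 0 = z.1.2.1} =
      ∑ w : X l, Nat.card {p : X n × X n //
        (run H c (chg G F p.1.1 p.2.1) (v ++ w.1) t).2 0 = p.2.1} := by
    simp only [Nat.card_eq_fintype_card, Fintype.card_subtype, Finset.card_filter]
    rw [Fintype.sum_prod_type_right]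
  rw [h2, Finset.mul_sum]
  calc ∑ w : X l, T * Nat.card {p : X n × X n //
        (run H c (chg G F p.1.1 p.2.1) (v ++ w.1) t).2 0 = p.2.1} ≤ ∑ _w : X l, 4 ^ n :=
        Finset.sum_le_sum fun w _ => h1 w
    _ = 4 ^ n * 2 ^ l := by
      rw [Finset.sum_const, Finset.card_univ, smul_eq_mul, card_X, mul_comm]

theorem secure_full {XO : Lang} {G F K : List Bool → List Bool}
    (hT : TD.TrapdoorPermutations XO G F K) (hS : TD.Secure XO G F fun n => 2 ^ (n / 5))
    {b : ℕ → ℕ} (hb : ∀ k, b k ≤ k) (hmono : Monotone b)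
    (htend : Filter.Tendsto b Filter.atTop Filter.atTop) {ρ : ℕ → Bool}
    (hρ : ∀ j, Good XO (rr b) b (chg G F) j ρ) : SecurePPT (full XO (rr b) ρ) G F := by
  classical
  intro c e
  obtain ⟨J, hJ⟩ := Filter.eventually_atTop.1
    ((Filter.tendsto_atTop.1 htend) (max (Encodable.encode c) (4 * e + 2)))
  filter_upwards [hyb_secure hT hS (rr_mono b) (rr_le_N hmono hb) ρ c e,
    num_ev 0 (e + 1), Filter.eventually_ge_atTop (N (J + 1)),
    Filter.eventually_ge_atTop 2] with n h1 h2 h3 hn2 v hv l hl t ht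
  -- the scale of `n`
  obtain ⟨j, hj1, hj2⟩ : ∃ j, N (j + 1) ≤ n ∧ n < N (j + 2) := by
    have hex : ∃ i, n < N i := ⟨n, k_lt_N n⟩
    set i := Nat.find hex with hi
    have hi1 : n < N i := Nat.find_spec hex
    have hi2 : J + 1 < i := by
      by_contra hc
      have := N_mono (by omega : i ≤ J + 1)
      omega
    refine ⟨i - 2, ?_, ?_⟩
    · have h4 : ¬ n < N (i - 1) := Nat.find_min hex (by omega)
      rw [show i - 2 + 1 = i - 1 by omega]
      omega
    · rw [show i - 2 + 2 = i by omega]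
      exact hi1
  have hjJ : J ≤ j := by
    by_contra hc
    have := N_mono (by omega : j + 2 ≤ J + 1)
    omega
  have hbj := hJ j hjJ
  have hc1 : Encodable.encode c ≤ b j := (le_max_left _ _).trans hbj
  have he1 : 4 * e + 2 ≤ b j := (le_max_right _ _).trans hbj
  set H := hyb XO (rr b) ρ j with hH
  -- hits
  have hhit := hρ j c e hc1 he1 n hj1 hj2 v hv l hl
  -- successes in the hybrid
  have hcount := hyb_count (H := H) (G := G) (F := F) (c := c) (n := n) (l := l)
    (t := t) (T := 2 ^ (n / 5)) (v := v) (fun w hw => h1 j hj1 (v ++ w) (by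
      rw [List.length_append, hw]
      omega) t ht)
  -- successes in the full world
  set SA : Set (Zt n l) := {z |
    (run (full XO (rr b) ρ) c (chg G F z.1.1.1 z.1.2.1) (v ++ z.2.1) t).2 0 = z.1.2.1} with hSA
  set SB : Set (Zt n l) := {z |
    (run H c (chg G F z.1.1.1 z.1.2.1) (v ++ z.2.1) t).2 0 = z.1.2.1} with hSB
  set SC : Set (Zt n l) := {z |
    Hit H c (chg G F z.1.1.1 z.1.2.1) (v ++ z.2.1) (n ^ e) (pre ρ (rr b (j + 1)))} with hSC
  have hsub : SA ⊆ SB ∪ SC := by
    intro z hz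
    by_cases hz' : z ∈ SC
    · exact Or.inr hz'
    · left
      have h5 : ∀ q ∈ asked H c (chg G F z.1.1.1 z.1.2.1) (v ++ z.2.1) (n ^ e),
          H q = full XO (rr b) ρ q := by
        intro q hq
        refine (full_eq_hyb (rr_mono b) fun hp => hz' ?_).symm
        exact ⟨pw q, List.mem_map.2 ⟨q, hq, rfl⟩, hp⟩
      have h6 := run_congr h5 t ht
      show (run H c _ _ t).2 0 = _
      rw [← h6]
      exact hz
  have hcard : SA.ncard ≤ SB.ncard + SC.ncard :=
    (Set.ncard_le_ncard hsub (Set.toFinite _)).trans (Set.ncard_union_le _ _)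
  have hfin : Nat.card {p : List Bool × List Bool × List Bool // p.1.length = n ∧
      p.2.1.length = n ∧ p.2.2.length = l ∧
      (run (full XO (rr b) ρ) c (G p.1 ++ F (G p.1 ++ p.2.1)) (v ++ p.2.2) t).2 0 =
        p.2.1} ≤ SA.ncard := by
    rw [← Nat.card_coe_set_eq]
    apply Nat.card_le_card_of_injective (fun p : {p : List Bool × List Bool × List Bool //
      p.1.length = n ∧ p.2.1.length = n ∧ p.2.2.length = l ∧
      (run (full XO (rr b) ρ) c (G p.1 ++ F (G p.1 ++ p.2.1)) (v ++ p.2.2) t).2 0 =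
        p.2.1} => (⟨((⟨p.1.1, p.2.1⟩, ⟨p.1.2.1, p.2.2.1⟩), ⟨p.1.2.2, p.2.2.2.1⟩),
          p.2.2.2.2⟩ : SA))
    intro p p' hpp
    have g := Subtype.ext_iff.1 hpp
    simp only [Prod.mk.injEq, Subtype.mk.injEq] at g
    apply Subtype.ext
    exact Prod.ext g.1.1 (Prod.ext g.1.2 g.2)
  have hB : 2 ^ (n / 5) * SB.ncard ≤ 4 ^ n * 2 ^ l := hcount
  have hC : n ^ (e + 1) * SC.ncard ≤ 4 ^ n * 2 ^ l := hhit
  have hT2 : n ^ (e + 1) ≤ 2 ^ (n / 5) := by
    have := h2
    rw [Nat.zero_mul, pow_zero, Nat.mul_one] at this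
    exact this
  have hB2 : n ^ (e + 1) * SB.ncard ≤ 4 ^ n * 2 ^ l := (Nat.mul_le_mul_right _ hT2).trans hB
  have hn3 : 2 * n ^ e ≤ n ^ (e + 1) := by
    rw [pow_succ, mul_comm]
    exact Nat.mul_le_mul_left _ hn2
  have h7 : 2 * (n ^ e * (SB.ncard + SC.ncard)) ≤ 2 * (4 ^ n * 2 ^ l) := by
    calc 2 * (n ^ e * (SB.ncard + SC.ncard)) = 2 * n ^ e * SB.ncard + 2 * n ^ e * SC.ncard := by
          ring
      _ ≤ n ^ (e + 1) * SB.ncard + n ^ (e + 1) * SC.ncard :=
          Nat.add_le_add (Nat.mul_le_mul_right _ hn3) (Nat.mul_le_mul_right _ hn3)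
      _ ≤ _ := by omega
  have h8 : n ^ e * (SB.ncard + SC.ncard) ≤ 4 ^ n * 2 ^ l := by omega
  exact (Nat.mul_le_mul_left _ (hfin.trans hcard)).trans h8

end Pool.Agent.PCW
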