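import Pool.Agent.Lib_helper78.PCW.H

/-!
# The language (MP_5d94c0_lc)
-/

set_option autoImplicit false
set_option linter.unusedSectionVars false

namespace Pool.Agent.PCW

open Pool.Agent.CK Pool.Agent.CKP Pool.Agent.PSL

variable {P : Lang} {γ : Type} [ToD γ]

/-- the code of a unary number and a string -/
def cd (n : List Unit) (u : List Bool) : List Bool := (D.cons (toD n) (toD u)).enc

/-- the number of a code -/
def zn (z : List Bool) : List Unit := ulen (toList (dec z).car)

/-- the string of a code -/
def zu (z : List Bool) : List Bool := toBits (dec z).cdr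

theorem zn_cd (m : ℕ) (u : List Bool) :
    zn (cd (List.replicate m ()) u) = List.replicate m () := by
  have e : dec (cd (List.replicate m ()) u) = D.cons (toD (List.replicate m ())) (toD u) :=
    dec_enc _
  unfold zn
  rw [e]
  show ulen (toList (toD (List.replicate m ()))) = _
  rw [toList_toD, ulen_eq, List.length_map, List.length_replicate]

theorem zu_cd (n : List Unit) (u : List Bool) : zu (cd n u) = u := by
  have e : dec (cd n u) = D.cons (toD n) (toD u) := dec_enc _
  unfold zu
  rw [e]
  exact toBits_toD u

theorem ptime_cd {n : γ → List Unit} {u : γ → List Bool} (hn : PTime P n) (hu : PTime P u) :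
    PTime P (fun a => cd (n a) (u a)) := PTime.enc (hn.code.consD hu.code)

theorem ptime_zn {z : γ → List Bool} (hz : PTime P z) : PTime P (fun a => zn (z a)) :=
  (PTime.dec hz).car.toList.ulen

theorem ptime_zu {z : γ → List Bool} (hz : PTime P z) : PTime P (fun a => zu (z a)) :=
  (PTime.dec hz).cdr.toBits

theorem cd_length (m : ℕ) (u : List Bool) : 2 * m + u.length ≤ (cd (List.replicate m ()) u).length := by
  unfold cd
  rw [D.enc_length]
  have h1 : (D.cons (toD (List.replicate m ())) (toD u)).size =
      (toD (List.replicate m ())).size + (toD u).size + 1 := rfl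
  rw [h1, size_units]
  have := len_le_size u
  omega

/-- valid codes -/
def vld (b : ℕ → ℕ) (z : List Bool) : Bool :=
  decide (z = cd (zn z) (zu z)) && (decide ((scl (zn z)).2.length = (zn z).length) &&
    decide ((zu z).length = (rU b (scl (zn z))).length))

/-- the language -/
def LL (b : ℕ → ℕ) (ρ : ℕ → Bool) : Lang := fun z => vld b z && leI (zu z) ρ

section

variable {b : ℕ → ℕ} (hmono : Monotone b) (hb : ∀ k, b k ≤ k)

include hmono hb

theorem vld_cd {k : ℕ} {u : List Bool} (hu : u.length = rr b k) :
    vld b (cd (List.replicate (N k) ()) u) = true := by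
  unfold vld
  rw [zn_cd, zu_cd, scl_eq]
  simp only [List.length_replicate]
  rw [kk_N, rU_eq hmono hb, List.length_replicate]
  simp [hu]

theorem vld_iff {z : List Bool} : vld b z = true ↔
    ∃ k, z = cd (List.replicate (N k) ()) (zu z) ∧ (zu z).length = rr b k := by
  constructor
  · intro h
    unfold vld at h
    rw [Bool.and_eq_true, Bool.and_eq_true, decide_eq_true_eq, decide_eq_true_eq,
      decide_eq_true_eq] at h
    obtain ⟨h1, h2, h3⟩ := h
    have h4 : zn z = List.replicate (zn z).length () := by
      unfold zn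
      rw [ulen_eq, List.length_replicate]
    rw [scl_eq, List.length_replicate] at h2
    rw [scl_eq, rU_eq hmono hb, List.length_replicate] at h3
    refine ⟨kk (zn z).length, ?_, h3⟩
    rw [h2, ← h4]
    exact h1
  · rintro ⟨k, h1, h2⟩
    rw [h1]
    exact vld_cd hmono hb h2

theorem LL_cd (ρ : ℕ → Bool) {k : ℕ} {u : List Bool} (hu : u.length = rr b k) :
    LL b ρ (cd (List.replicate (N k) ()) u) = leI u ρ := by
  unfold LL
  rw [vld_cd hmono hb hu, zu_cd, Bool.true_and]

theorem ptime_vld (hT : PTime P (RT b)) : PTime P (vld b) := by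
  unfold vld
  have h1 : PTime P (fun z : List Bool => zn z) := ptime_zn PTime.id
  have h2 : PTime P (fun z : List Bool => zu z) := ptime_zu PTime.id
  have h3 := ptime_scl h1
  exact (TD.ptime_list_eq PTime.id (ptime_cd h1 h2)).and ((PTime.nat_eq h3.snd.length
    h1.length).and (PTime.nat_eq h2.length (ptime_rU hT h3).length))

/-- the selector -/
theorem LL_selective (hT : PTime P (RT b)) (ρ : ℕ → Bool) : PCL.PSelective P (LL b ρ) := by
  have hv := ptime_vld hmono hb hT
  have hf : PTime P (fun p : List Bool × List Bool =>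
      if vld b p.1 = true then (if vld b p.2 = true then
        (if le (zu p.1) (zu p.2) = true then p.1 else p.2) else p.1) else p.2) :=
    PTime.ite (hv.comp PTime.id.fst) (PTime.ite (hv.comp PTime.id.snd)
      (PTime.ite (ptime_le (ptime_zu PTime.id.fst) (ptime_zu PTime.id.snd)) PTime.id.fst
        PTime.id.snd) PTime.id.fst) PTime.id.snd
  obtain ⟨c, k, h⟩ := two_inputs hf
  refine ⟨c, k, fun x y => ⟨(h x y).1, _, (h x y).2, ?_, ?_⟩⟩
  · simp only
    split_ifs
    · exact Or.inl rfl
    · exact Or.inr rfl
    · exact Or.inl rfl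
    · exact Or.inr rfl
  · intro hxy
    simp only
    by_cases h1 : vld b x = true
    · rw [if_pos h1]
      by_cases h2 : vld b y = true
      · rw [if_pos h2]
        unfold LL at hxy ⊢
        rw [h1, h2, Bool.true_and, Bool.true_and] at hxy
        by_cases h3 : le (zu x) (zu y) = true
        · rw [if_pos h3, h1, Bool.true_and]
          rcases hxy with hx | hy
          · exact hx
          · exact le_leI h3 hy
        · rw [if_neg h3, h2, Bool.true_and]
          rcases hxy with hx | hy
          · exact le_leI ((PSL.le_total (zu x) (zu y)).resolve_left h3) hx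
          · exact hy
      · rw [if_neg h2]
        rcases hxy with hx | hy
        · exact hx
        · exfalso
          unfold LL at hy
          rw [Bool.and_eq_true] at hy
          exact h2 hy.1
    · rw [if_neg h1]
      rcases hxy with hx | hy
      · exfalso
        unfold LL at hx
        rw [Bool.and_eq_true] at hx
        exact h1 hx.1
      · exact hy

end

/-! ### the language is in `NP` -/

theorem ptime_zeros {n : γ → List Unit} (hn : PTime P n) :
    PTime P (fun a => (n a).map fun _ => false) :=
  PTime.map (f := fun _ _ => false) hn (PTime.const _)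

theorem map_false (n : ℕ) : ((List.replicate n ()).map fun _ => false) =
    List.replicate n false := by
  rw [List.map_const', List.length_replicate]

theorem LL_inNP {X : Lang} {b : ℕ → ℕ} (hmono : Monotone b) (hb : ∀ k, b k ≤ k)
    {ρ : ℕ → Bool} (hT : PTime (full X (rr b) ρ) (RT b)) :
    InNP (full X (rr b) ρ) (LL b ρ) := by
  set O := full X (rr b) ρ with hO
  refine inNP_of (V := fun p => vld b p.1 && (O (qA p.2 ++ (zn p.1).map fun _ => false) &&
    le (zu p.1) p.2)) ?_ (B := fun n => n) UPoly.id ?_ ?_
  · refine ((ptime_vld hmono hb hT).comp PTime.id.fst).and (PTime.and ?_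
      (ptime_le (ptime_zu PTime.id.fst) PTime.id.snd))
    exact PTime.ask ((ptime_qA PTime.id.snd).append (ptime_zeros (ptime_zn PTime.id.fst)))
  · intro z hz
    unfold LL at hz
    rw [Bool.and_eq_true] at hz
    obtain ⟨hv, hle⟩ := hz
    obtain ⟨k, h1, h2⟩ := (vld_iff hmono hb).1 hv
    have h3 : zn z = List.replicate (N k) () := by
      rw [h1, zn_cd]
    have h4 := cd_length (N k) (zu z)
    rw [← h1] at h4
    refine ⟨pre ρ (rr b k), ?_, ?_⟩
    · rw [pre_length]
      omega
    · simp only
      rw [Bool.and_eq_true, Bool.and_eq_true]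
      refine ⟨hv, ?_, leI_le h2.le hle⟩
      rw [hO]
      unfold full
      rw [orcl_qA]
      refine ⟨k, trivial, rfl, ?_⟩
      rw [h3, map_false, List.length_append, List.length_replicate]
      omega
  · intro z y h
    rw [Bool.and_eq_true, Bool.and_eq_true] at h
    obtain ⟨h1, h2, h3⟩ := h
    rw [hO] at h2
    unfold full at h2
    rw [orcl_qA] at h2
    obtain ⟨j, _, h4, _⟩ := h2
    unfold LL
    rw [Bool.and_eq_true]
    refine ⟨h1, le_leI h3 ?_⟩
    have h5 : y = pre ρ (rr b j) := h4
    rw [h5]
    exact leI_pre ρ _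

/-! ### few queries -/

theorem leI_zeros (m : ℕ) : ∀ ρ : ℕ → Bool, leI (List.replicate m false) ρ = true := by
  induction m with
  | zero => intro ρ; rfl
  | succ m ih =>
    intro ρ
    rw [List.replicate_succ]
    have := ih fun n => ρ (n + 1)
    cases h : ρ 0 <;> simp [leI, h, this]

theorem leI_snoc0 (n m : ℕ) : ∀ ρ : ℕ → Bool,
    leI (pre ρ n ++ true :: List.replicate m false) ρ = ρ n := by
  induction n with
  | zero =>
    intro ρ
    have := leI_zeros m fun n => ρ (n + 1)
    cases h : ρ 0 <;> simp [pre, leI, h, this]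
  | succ n ih =>
    intro ρ
    rw [pre_cons]
    have := ih (fun m => ρ (m + 1))
    simp only [List.cons_append, leI]
    rw [this]
    cases ρ 0 <;> simp

/-- the query after the answers `a`, at the scale `s` -/
def qf (b : ℕ → ℕ) (s : List Unit × List Unit) (a : List Bool) : List Bool :=
  cd s.2 (a ++ true :: (udrop (true :: a) (rU b s)).map fun _ => false)

theorem LL_qf {b : ℕ → ℕ} (hmono : Monotone b) (hb : ∀ k, b k ≤ k) (ρ : ℕ → Bool) {k i : ℕ}
    (hi : i < rr b k) :
    LL b ρ (qf b (List.replicate k (), List.replicate (N k) ()) (pre ρ i)) = ρ i := by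
  unfold qf
  rw [rU_eq hmono hb, udrop_eq, List.drop_replicate, map_false, List.length_cons, pre_length]
  rw [LL_cd hmono hb]
  · exact leI_snoc0 _ _ _
  · rw [List.length_append, List.length_cons, List.length_replicate, pre_length]
    omega

theorem ptime_qf {b : ℕ → ℕ} (hT : PTime P (RT b)) {s : γ → List Unit × List Unit}
    {a : γ → List Bool} (hs : PTime P s) (ha : PTime P a) :
    PTime P (fun x => qf b (s x) (a x)) :=
  ptime_cd hs.snd (ha.append (PTime.cons (PTime.const true)
    (ptime_zeros ((PTime.cons (PTime.const true) ha).udrop (ptime_rU hT hs)))))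

/-- the number that determines the scale -/
def m0 (i : ℕ) (x : List Bool) : ℕ := 8 * (kg i x).length + 8 + x.length

/-- the scale for `x` -/
def ss (i : ℕ) (x : List Bool) : List Unit × List Unit := scl (List.replicate (m0 i x) ())

theorem ss_eq (i : ℕ) (x : List Bool) : ss i x =
    (List.replicate (kk (m0 i x)) (), List.replicate (N (kk (m0 i x))) ()) := by
  unfold ss
  rw [scl_eq, List.length_replicate]

theorem ptime_ss {i : ℕ} {x : γ → List Bool} (hx : PTime P x) :
    PTime P (fun a => ss i (x a)) := by
  unfold ss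
  refine ptime_scl ?_
  have h1 : PTime P (fun a => List.replicate (8 * (kg i (x a)).length + 8) ()) :=
    (((UPoly.const 8).mul UPoly.id).add (UPoly.const 8)).comp ((ptime_kg i).comp hx)
  refine (h1.append hx.ulen).of_eq fun a => ?_
  rw [ulen_eq, List.replicate_append_replicate]
  rfl

/-- the final decision -/
def df (O : Lang) (i : ℕ) (x a : List Bool) : Bool :=
  O (qB a (kg i x) ++ (ss i x).2.map fun _ => false)

theorem ptime_df {O : Lang} (hO : PTime P O) {i : ℕ} {x a : γ → List Bool} (hx : PTime P x)
    (ha : PTime P a) : PTime P (fun c => df O i (x c) (a c)) :=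
  hO.comp ((ptime_qB ha ((ptime_kg i).comp hx)).append (ptime_zeros (ptime_ss hx).snd))

theorem df_eq {X : Lang} {r : ℕ → ℕ} (ρ : ℕ → Bool) (i : ℕ) (x : List Bool) :
    df (full X r ρ) i x (pre ρ (r (kk (m0 i x)))) = NL i (full X r ρ) x := by
  unfold df
  rw [ss_eq, map_false, ← K_kg]
  unfold full
  have h1 := le_N_kk (m0 i x)
  unfold m0 at h1
  refine orcl_qB (J := fun _ => True) trivial ?_ ?_
  · unfold m0
    omega
  · rw [List.length_append, List.length_replicate]
    exact Nat.le_add_left _ _

/-- bound for the scale and the answers -/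
theorem exists_bound {m1 : List Bool → ℕ}
    (hm : PTime P (fun x : List Bool => List.replicate (m1 x) ())) {b : ℕ → ℕ}
    (hmono : Monotone b) (hb : ∀ k, b k ≤ k) :
    ∃ E, ∀ x : List Bool, x.length + rr b (kk (m1 x)) + 2 ≤ (x.length + 2) ^ E ∧
      N (kk (m1 x)) ≤ (x.length + 2) ^ E := by
  obtain ⟨Q, hQ⟩ := hm.size_le
  set R : Polynomial ℕ := Q.comp (Polynomial.C 4 * Polynomial.X + Polynomial.C 1) with hR
  obtain ⟨E, hE⟩ := exists_pow (Polynomial.X + Polynomial.C 4 * (R * R + Polynomial.C 2) +
    Polynomial.C 2)
  refine ⟨E, fun x => ?_⟩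
  have h1 := hE x.length
  have h2 : m1 x ≤ R.eval x.length := by
    have g2 := hQ x
    rw [sz_units, List.length_replicate] at g2
    have g3 : sz x ≤ 4 * x.length + 1 := size_bits x
    have g4 := poly_mono Q g3
    simp only [hR, Polynomial.eval_add, Polynomial.eval_mul, Polynomial.eval_comp,
      Polynomial.eval_X, Polynomial.eval_C]
    omega
  have h3 := N_kk_le (m1 x)
  have h4 := Nat.mul_le_mul h2 h2
  have h5 := rr_le_N hmono hb (kk (m1 x))
  simp only [Polynomial.eval_add, Polynomial.eval_mul, Polynomial.eval_X,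
    Polynomial.eval_C] at h1
  constructor
  · refine le_trans ?_ h1
    omega
  · refine le_trans ?_ h1
    omega

/-! ### the language from the password -/

/-- the language, computed from a password -/
def LA (b : ℕ → ℕ) (a : List Bool) : Lang := fun z => vld b z && le (zu z) a

theorem LA_eq {b : ℕ → ℕ} (hmono : Monotone b) (hb : ∀ k, b k ≤ k) (ρ : ℕ → Bool) {k : ℕ}
    {z : List Bool} (hz : z.length ≤ N k) : LA b (pre ρ (rr b k)) z = LL b ρ z := by
  unfold LA LL
  by_cases hv : vld b z = true
  · obtain ⟨k', h1, h2⟩ := (vld_iff hmono hb).1 hv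
    have h3 := cd_length (N k') (zu z)
    rw [← h1] at h3
    have h4 : k' ≤ k := N_le_iff.1 (by omega)
    have h5 : (zu z).length ≤ rr b k := by
      rw [h2]
      exact (rr_mono b).monotone h4
    rw [hv, le_pre h5]
  · rw [Bool.not_eq_true] at hv
    rw [hv]
    rfl

theorem ptime_LA {b : ℕ → ℕ} (hmono : Monotone b) (hb : ∀ k, b k ≤ k) (hT : PTime P (RT b))
    {a : γ → List Bool} (ha : PTime P a) :
    PTime P (fun p : γ × List Bool => LA b (a p.1) p.2) :=
  ((ptime_vld hmono hb hT).comp PTime.id.snd).and
    (ptime_le (ptime_zu PTime.id.snd) (ha.comp PTime.id.fst))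

/-- the priorities -/
def prio (b : ℕ → ℕ) (z : List Bool) : List Bool :=
  if vld b z = true then false :: zu z else [true]

theorem ptime_prio {b : ℕ → ℕ} (hmono : Monotone b) (hb : ∀ k, b k ≤ k)
    (hT : PTime P (RT b)) : PTime P (prio b) :=
  PTime.ite (ptime_vld hmono hb hT) (PTime.cons (PTime.const false) (ptime_zu PTime.id))
    (PTime.const [true])

theorem prio_closed (b : ℕ → ℕ) (ρ : ℕ → Bool) : PrioClosed (prio b) (LL b ρ) := by
  intro x y hxy hy
  unfold LL at hy ⊢
  rw [Bool.and_eq_true] at hy ⊢
  unfold prio at hxy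
  rw [if_pos hy.1] at hxy
  by_cases hx : vld b x = true
  · rw [if_pos hx] at hxy
    refine ⟨hx, le_leI ?_ hy.2⟩
    simpa [le] using hxy
  · rw [if_neg hx] at hxy
    simp [le] at hxy

end Pool.Agent.PCW
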