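import Pool.Agent.Lib_helper78.PCW.I
import Pool.Agent.Lib_helper40.TDB.NotP

/-!
# Few queries, completeness and density (MP_5d94c0_lc)
-/

set_option autoImplicit false
set_option linter.unusedSectionVars false

namespace Pool.Agent.PCW

open Pool.Agent.CK Pool.Agent.CKP Pool.Agent.PSL

variable {P : Lang} {γ : Type} [ToD γ]

section

variable {X : Lang} {b : ℕ → ℕ} {ρ : ℕ → Bool}

/-- Reductions with few queries: from the password at scale `kk (m1 x)` one decides `D x`. -/
theorem few_of {O : Lang} (hmono : Monotone b) (hb : ∀ k, b k ≤ k)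
    (htend : Filter.Tendsto b Filter.atTop Filter.atTop) {s : ℕ → ℕ}
    (hcnd : ∀ k, Cnd s (b k) k) (hT : PTime O (RT b)) {m1 : List Bool → ℕ}
    {dd : List Bool × List Bool → Bool}
    (hm : PTime O (fun x : List Bool => List.replicate (m1 x) ()))
    (hlen : ∀ x : List Bool, x.length ≤ m1 x) (hdd : PTime O dd) {D : Lang}
    (hD : ∀ x, dd (x, pre ρ (rr b (kk (m1 x)))) = D x) :
    FewQueriesReducible O D (LL b ρ) s := by
  obtain ⟨E, hE⟩ := exists_bound hm hmono hb
  have hs : PTime O (fun p : List Bool × List Bool => scl (List.replicate (m1 p.1) ())) :=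
    ptime_scl (hm.comp PTime.id.fst)
  have hf : PTime O (fun p : List Bool × List Bool =>
      if decide (p.2.length < (rU b (scl (List.replicate (m1 p.1) ()))).length) = true then
        true :: qf b (scl (List.replicate (m1 p.1) ())) p.2 else [false, dd p]) :=
    PTime.ite (PTime.nat_lt (PTime.length PTime.id.snd) (ptime_rU hT hs).length)
      (PTime.cons (PTime.const true) (ptime_qf hT hs PTime.id.snd))
      (PTime.cons (PTime.const false) (PTime.cons hdd (PTime.const [])))
  obtain ⟨c, k1, h1⟩ := two_inputs hf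
  obtain ⟨K0, hK0⟩ := Filter.eventually_atTop.1 (Filter.tendsto_atTop.1 htend E)
  refine ⟨c, E * (k1 + 1), N K0 + 1, fun x => ⟨rr b (kk (m1 x)), fun j => pre ρ j, ?_, ?_, rfl,
    ?_, ?_, ?_⟩⟩
  · have g1 := (hE x).1
    calc rr b (kk (m1 x)) ≤ (x.length + 2) ^ E := by omega
      _ ≤ _ := Nat.pow_le_pow_right (by omega) (Nat.le_mul_of_pos_right E (by omega))
  · intro hx
    have g1 : K0 ≤ kk (m1 x) := by
      by_contra hc
      have g2 := le_N_kk (m1 x)
      have g3 := N_mono (by omega : kk (m1 x) ≤ K0)
      have g4 := hlen x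
      omega
    have g2 := hcnd (kk (m1 x)) x.length E (hK0 _ g1) (hE x).2
    have g3 := rr_le hmono (kk (m1 x))
    omega
  all_goals
    have htime : ∀ j ≤ rr b (kk (m1 x)), (x.length + (pre ρ j).length + 2) ^ k1 ≤
        (x.length + 2) ^ (E * (k1 + 1)) := by
      intro j hj
      have g1 : x.length + (pre ρ j).length + 2 ≤ (x.length + 2) ^ E := by
        refine le_trans ?_ (hE x).1
        rw [pre_length]
        omega
      calc (x.length + (pre ρ j).length + 2) ^ k1 ≤ ((x.length + 2) ^ E) ^ k1 :=
            Nat.pow_le_pow_left g1 _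
        _ = (x.length + 2) ^ (E * k1) := by rw [← pow_mul]
        _ ≤ _ := Nat.pow_le_pow_right (by omega) (Nat.mul_le_mul_left _ (by omega))
    have hrun : ∀ j ≤ rr b (kk (m1 x)),
        Halts O c x (pre ρ j) ((x.length + 2) ^ (E * (k1 + 1))) ∧
        (run O c x (pre ρ j) ((x.length + 2) ^ (E * (k1 + 1)))).2 0 =
          if j < rr b (kk (m1 x)) then
            true :: qf b (List.replicate (kk (m1 x)) (), List.replicate (N (kk (m1 x))) ())
              (pre ρ j) else [false, dd (x, pre ρ j)] := by
      intro j hj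
      obtain ⟨g1, g2⟩ := h1 x (pre ρ j)
      have g4 := PCL.NE_run_stable g1 (htime j hj)
      simp only [decide_eq_true_eq] at g2
      rw [scl_eq, List.length_replicate, rU_eq hmono hb, List.length_replicate] at g2
      refine ⟨?_, ?_⟩
      · unfold Halts at g1 ⊢
        rw [g4]
        exact g1
      · rw [g4, g2]
        simp only [pre_length]
  · exact fun j hj => (hrun j hj).1
  · intro j hj
    refine ⟨qf b (List.replicate (kk (m1 x)) (), List.replicate (N (kk (m1 x))) ()) (pre ρ j),
      ?_, ?_⟩
    · have := (hrun j hj.le).2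
      rw [if_pos hj] at this
      exact this
    · show pre ρ (j + 1) = _
      rw [pre_succ, LL_qf hmono hb ρ hj]
  · have := (hrun _ le_rfl).2
    rw [if_neg (lt_irrefl _)] at this
    rw [this, hD]

/-- The data of a language that reduces to `LL`: it is decided with the help of a password. -/
theorem exists_dd {O : Lang} (hmono : Monotone b) (hb : ∀ k, b k ≤ k) (hT : PTime O (RT b))
    {D : Lang} (hD : TuringReducible O D (LL b ρ)) : ∃ (i : ℕ)
      (dd : List Bool × List Bool → Bool), PTime O dd ∧
      ∀ x : List Bool, dd (x, pre ρ (rr b (kk (x.length + (x.length + 2) ^ i)))) = D x := by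
  obtain ⟨i, rfl⟩ := exists_PL hD
  have hx : PTime O (fun p : List Bool × List Bool => p.1) := PTime.id.fst
  refine ⟨ex i, fun p => accB (join O (LA b p.2)) (prog i) p.1 [] ((p.1.length + 2) ^ ex i),
    ptime_accB (P := fun p : List Bool × List Bool => join O (LA b p.2))
      (ptime_join (B := fun p : List Bool × List Bool => LA b p.2)
        (ptime_LA hmono hb hT PTime.id.snd)) (prog i) hx (PTime.const [])
      ((UPoly.tb (ex i)).comp hx), fun x => ?_⟩
  show accB (join O (LA b (pre ρ _))) (prog i) x [] _ = accB (join O (LL b ρ)) (prog i) x [] _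
  refine mach_accB_congr _ _ _ _ _ _ x.length (x.length + (x.length + 2) ^ ex i) le_rfl
    (Nat.zero_le _) le_rfl ?_
  intro w hw
  match w with
  | [] => rfl
  | false :: w => rfl
  | true :: w =>
    show LA b _ w = LL b ρ w
    apply LA_eq hmono hb
    rw [List.length_cons] at hw
    have h1 := le_N_kk (x.length + (x.length + 2) ^ ex i)
    omega

/-- the unary number that determines the scale -/
theorem upoly_m (O : Lang) (i : ℕ) : UPoly O (fun n => n + (n + 2) ^ i) :=
  (UPoly.id).add (UPoly.tb i)

/-- Everything that reduces to the language reduces to it with few queries. -/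
theorem few_turing {O : Lang} (hmono : Monotone b) (hb : ∀ k, b k ≤ k)
    (htend : Filter.Tendsto b Filter.atTop Filter.atTop) {s : ℕ → ℕ}
    (hcnd : ∀ k, Cnd s (b k) k) (hT : PTime O (RT b)) {D : Lang}
    (hD : TuringReducible O D (LL b ρ)) : FewQueriesReducible O D (LL b ρ) s := by
  obtain ⟨i, dd, h1, h2⟩ := exists_dd hmono hb hT hD
  exact few_of (m1 := fun x => x.length + (x.length + 2) ^ i) hmono hb htend hcnd hT
    ((upoly_m O i).comp PTime.id) (fun x => Nat.le_add_right _ _) h1 h2

/-- Everything that reduces to the language has unique witnesses: the passwords. -/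
theorem up_turing (hmono : Monotone b) (hb : ∀ k, b k ≤ k)
    (hT : PTime (full X (rr b) ρ) (RT b)) {D : Lang}
    (hD : TuringReducible (full X (rr b) ρ) D (LL b ρ)) : InUP (full X (rr b) ρ) D := by
  obtain ⟨i, dd, h1, h2⟩ := exists_dd hmono hb hT hD
  set O := full X (rr b) ρ with hO
  set m : List Bool → ℕ := fun x => x.length + (x.length + 2) ^ i with hm
  set V : List Bool × List Bool → Bool := fun p =>
    (decide (p.2.length = (rU b (scl (List.replicate (m p.1) ()))).length) &&
      O (qA p.2 ++ (scl (List.replicate (m p.1) ())).2.map fun _ => false)) && dd p with hVdef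
  have hs : PTime O (fun p : List Bool × List Bool => scl (List.replicate (m p.1) ())) :=
    ptime_scl ((upoly_m O i).comp PTime.id.fst)
  have hV : PTime O V := ((PTime.nat_eq (PTime.length PTime.id.snd) (ptime_rU hT hs).length).and
    (PTime.ask ((ptime_qA PTime.id.snd).append (ptime_zeros hs.snd)))).and h1
  have key : ∀ x y : List Bool, V (x, y) = true ↔ y = pre ρ (rr b (kk (m x))) ∧ D x = true := by
    intro x y
    simp only [hVdef]
    rw [Bool.and_eq_true, Bool.and_eq_true, decide_eq_true_eq, scl_eq, List.length_replicate,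
      rU_eq hmono hb, List.length_replicate, map_false, hO]
    unfold full
    rw [orcl_qA]
    constructor
    · rintro ⟨⟨g1, j, _, g2, _⟩, g3⟩
      have g4 : kk (m x) = j := by
        rw [g2, pre_length] at g1
        exact ((rr_mono b).injective g1).symm
      have g5 : y = pre ρ (rr b (kk (m x))) := by rw [g4]; exact g2
      refine ⟨g5, ?_⟩
      rw [g5] at g3
      rw [← h2 x]
      exact g3
    · rintro ⟨g1, g2⟩
      refine ⟨⟨?_, kk (m x), trivial, g1, ?_⟩, ?_⟩
      · rw [g1, pre_length]
      · rw [List.length_append, List.length_replicate]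
        omega
      · rw [g1, h2 x, g2]
  refine TD.inUP_of hV (B := fun n => 4 * ((n + (n + 2) ^ i) * (n + (n + 2) ^ i) + 2))
    ((UPoly.const 4).mul (((upoly_m O i).mul (upoly_m O i)).add (UPoly.const 2))) ?_ ?_ ?_
  · intro x hx
    refine ⟨pre ρ (rr b (kk (m x))), ?_, (key x _).2 ⟨rfl, hx⟩⟩
    rw [pre_length]
    have g1 := rr_le_N hmono hb (kk (m x))
    have g2 := N_kk_le (m x)
    have g3 : N (kk (m x)) ≤ (x.length + (x.length + 2) ^ i) * (x.length + (x.length + 2) ^ i) + 2 := g2
    omega
  · intro x y h
    exact ((key x y).1 h).2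
  · intro x y y' h h'
    rw [((key x y).1 h).1, ((key x y').1 h').1]

theorem turing_compl {O D L : Lang} (hD : TuringReducible O D L) :
    TuringReducible O (fun x => !D x) L := inP_of (ptime_of_inP hD).not

/-- finding the password -/
def fillA (L : Lang) (b : ℕ → ℕ) (s : List Unit × List Unit) : List Bool :=
  (rU b s).foldl (fun a _ => a ++ [L (qf b s a)]) []

theorem fillA_eq (hmono : Monotone b) (hb : ∀ k, b k ≤ k) (k : ℕ) :
    fillA (LL b ρ) b (List.replicate k (), List.replicate (N k) ()) = pre ρ (rr b k) := by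
  have key : ∀ (l : List Unit) (n : ℕ), n + l.length ≤ rr b k →
      l.foldl (fun a _ => a ++ [LL b ρ (qf b (List.replicate k (), List.replicate (N k) ()) a)])
        (pre ρ n) = pre ρ (n + l.length) := by
    intro l
    induction l with
    | nil => intro n _; rfl
    | cons a t ih =>
      intro n hn
      rw [List.length_cons] at hn
      rw [List.foldl_cons, LL_qf hmono hb ρ (by omega), ← pre_succ, ih (n + 1) (by omega),
        List.length_cons]
      congr 1
      omega
  have h := key (rU b (List.replicate k (), List.replicate (N k) ())) 0 (by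
    rw [rU_eq hmono hb, List.length_replicate]
    omega)
  rw [Nat.zero_add] at h
  unfold fillA
  have h0 : pre ρ 0 = [] := rfl
  rw [h0] at h
  rw [h, rU_eq hmono hb, List.length_replicate]

theorem ptime_fillA {L : Lang} (hL : PTime P L) (hT : PTime P (RT b))
    {s : γ → List Unit × List Unit} (hs : PTime P s) : PTime P (fun a => fillA L b (s a)) := by
  unfold fillA
  have hu : PTime P (fun p : γ × List Bool × Unit => p.2.1) := PTime.id.snd.fst
  have hss : PTime P (fun p : γ × List Bool × Unit => s p.1) := hs.comp PTime.id.fst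
  refine PTime.foldl_add (l := fun a => rU b (s a)) (i := fun _ => ([] : List Bool))
    (s := fun x a _ => a ++ [L (qf b (s x) a)]) (ptime_rU hT hs) (PTime.const _)
    (hu.append (PTime.cons (hL.comp (ptime_qf hT hss hu)) (PTime.const [])))
    (Polynomial.C 4) ?_
  intro x a _ _
  rw [Polynomial.eval_C, sz_snoc]
  have := bool_sz (L (qf b (s x) a))
  omega

theorem LL_complete (hmono : Monotone b) (hb : ∀ k, b k ≤ k)
    (hT : PTime (full X (rr b) ρ) (RT b)) : TuringComplete (full X (rr b) ρ) (LL b ρ) := by
  refine ⟨LL_inNP hmono hb hT, fun D hD => ?_⟩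
  obtain ⟨i, rfl⟩ := exists_NL hD
  set O := full X (rr b) ρ with hO
  refine inP_of ?_
  have hL : PTime (join O (LL b ρ)) (LL b ρ) :=
    (PTime.askR (O := O) (B := LL b ρ) (PTime.id (α := List Bool)))
  have hO' : PTime (join O (LL b ρ)) O := (PTime.ask (O := O) PTime.id).lift
  have hs : PTime (join O (LL b ρ)) (fun x : List Bool => ss i x) := ptime_ss PTime.id
  refine (ptime_df hO' (i := i) PTime.id (ptime_fillA hL hT.lift hs)).of_eq fun x => ?_
  rw [ss_eq, fillA_eq hmono hb, hO, df_eq]

/-- the density of the language -/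
theorem LL_density (hmono : Monotone b) (hb : ∀ k, b k ≤ k)
    (htend : Filter.Tendsto b Filter.atTop Filter.atTop) {s : ℕ → ℕ}
    (hcnd : ∀ k, Cnd s (b k) k) : ∀ᶠ n : ℕ in Filter.atTop,
      Nat.card {z : List Bool // z.length ≤ n ∧ LL b ρ z = true} ≤ 2 ^ s n := by
  obtain ⟨K0, hK0⟩ := Filter.eventually_atTop.1 (Filter.tendsto_atTop.1 htend 1)
  filter_upwards [Filter.eventually_ge_atTop (N (K0 + 1))] with n hn
  have hk : K0 + 1 < kk (n + 1) := by
    by_contra hc
    have h1 := le_N_kk (n + 1)
    have h2 := N_mono (by omega : kk (n + 1) ≤ K0 + 1)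
    omega
  obtain ⟨k0, hk0⟩ : ∃ k0, kk (n + 1) = k0 + 1 := ⟨kk (n + 1) - 1, by omega⟩
  have hN : N k0 ≤ n := by
    have := N_lt_of_lt_kk (by omega : k0 < kk (n + 1))
    omega
  have h1 := hcnd k0 n 1 (hK0 k0 (by omega)) (by rw [pow_one]; omega)
  have h2 := rr_le hmono k0
  have h3 : Nat.card {z : List Bool // z.length ≤ n ∧ LL b ρ z = true} ≤
      Nat.card {u : List Bool // u.length ≤ rr b k0} := by
    have hfin : Finite {u : List Bool // u.length ≤ rr b k0} :=
      (List.finite_length_le Bool (rr b k0)).to_subtype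
    have hz : ∀ z : List Bool, z.length ≤ n → LL b ρ z = true →
        ∃ k ≤ k0, z = cd (List.replicate (N k) ()) (zu z) ∧ (zu z).length = rr b k := by
      intro z hz1 hz2
      unfold LL at hz2
      rw [Bool.and_eq_true] at hz2
      obtain ⟨k, g1, g2⟩ := (vld_iff hmono hb).1 hz2.1
      refine ⟨k, ?_, g1, g2⟩
      by_contra hc
      have g3 := cd_length (N k) (zu z)
      rw [← g1] at g3
      have g4 := N_mono (by omega : kk (n + 1) ≤ k)
      have g5 := le_N_kk (n + 1)
      omega
    apply Nat.card_le_card_of_injective (fun z : {z : List Bool // z.length ≤ n ∧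
      LL b ρ z = true} => (⟨zu z.1, by
        obtain ⟨k, hk, _, g⟩ := hz z.1 z.2.1 z.2.2
        rw [g]
        exact (rr_mono b).monotone hk⟩ : {u : List Bool // u.length ≤ rr b k0}))
    intro z z' hzz
    simp only [Subtype.mk.injEq] at hzz
    apply Subtype.ext
    obtain ⟨k, _, g1, g2⟩ := hz z.1 z.2.1 z.2.2
    obtain ⟨k', _, g1', g2'⟩ := hz z'.1 z'.2.1 z'.2.2
    have hkk : k = k' := by
      rw [hzz, g2'] at g2
      exact ((rr_mono b).injective g2).symm
    rw [g1, g1', hzz, hkk]
  have h4 : Nat.card {u : List Bool // u.length ≤ rr b k0} ≤ 2 ^ (rr b k0 + 1) := by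
    have := (TD.card_str (rr b k0)).2
    exact this
  refine (h3.trans h4).trans (Nat.pow_le_pow_right (by norm_num) ?_)
  omega

end

/-! ### if `NP` is contained in `P` then all permutations can be inverted -/

/-- change of the oracle -/
theorem ptime_of_inP_sim {Q A : Lang} (hQ : PTime P Q) (hA : InP Q A) : PTime P A := by
  obtain ⟨c, k, h⟩ := hA
  refine (PCL.ptime_accP (P := P) (γ := List Bool) hQ c PTime.id (PTime.const [])
    ((UPoly.tb k).comp PTime.id)).of_eq fun x => ?_
  rw [Bool.eq_iff_iff, accU_iff, List.length_replicate]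
  exact (h x).2

theorem ptime_join_self {O L : Lang} (hO : PTime P O) (hL : PTime P L) :
    PTime P (join O L) :=
  ((PCL.ptime_joinP (P := P) (γ := List Bool) hO (B := fun _ => L)
    (hL.comp PTime.id.snd)).comp (PTime.id.pair PTime.id)).of_eq fun _ => rfl

/-- verification of inverses -/
def invV (F : List Bool → List Bool) (z y : List Bool) : Bool :=
  decide (F ((udrop (TD.halfU z) z.reverse).reverse ++ y) = udrop (TD.halfU z) z) &&
    decide (z.length = (y ++ y).length)

theorem ptime_invV {F : List Bool → List Bool} (hF : PTime P F) {z y : γ → List Bool}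
    (hz : PTime P z) (hy : PTime P y) : PTime P (fun a => invV F (z a) (y a)) := by
  unfold invV
  have hh := TD.ptime_halfU hz
  exact (TD.ptime_list_eq (hF.comp (((hh.udrop hz.reverse).reverse).append hy))
    (hh.udrop hz)).and (PTime.nat_eq hz.length (hy.append hy).length)

theorem invV_iff {O : Lang} {G F K : List Bool → List Bool}
    (h : TD.TrapdoorPermutations O G F K) {n : ℕ} {td x : List Bool} (h1 : td.length = n)
    (h2 : x.length = n) (y : List Bool) : invV F (chg G F td x) y = true ↔ y = x := by
  have g1 : (G td).length = n := (h.bij_G n).mapsTo h1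
  have g2 : (F (G td ++ x)).length = n := by
    have := (h.bij_F (G td)).mapsTo (show x ∈ {x : List Bool | x.length = (G td).length} by
      show x.length = (G td).length
      rw [g1, h2])
    rw [← g1]
    exact this
  have g3 := chg_length h h1 h2
  have e1 : udrop (TD.halfU (chg G F td x)) (chg G F td x) = F (G td ++ x) := by
    rw [TD.halfU_eq, udrop_eq, List.length_replicate, g3, Nat.mul_div_cancel_left n (by norm_num)]
    unfold chg
    rw [List.drop_left' g1]
  have e2 : (udrop (TD.halfU (chg G F td x)) (chg G F td x).reverse).reverse = G td := by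
    rw [TD.halfU_eq, udrop_eq, List.length_replicate, g3, Nat.mul_div_cancel_left n (by norm_num),
      List.drop_reverse, List.reverse_reverse, g3]
    unfold chg
    rw [show 2 * n - n = n by omega, List.take_left' g1]
  unfold invV
  rw [e1, e2, g3, Bool.and_eq_true, decide_eq_true_eq, decide_eq_true_eq, List.length_append]
  constructor
  · rintro ⟨h3, h4⟩
    refine (h.bij_F (G td)).injOn ?_ ?_ h3
    · show y.length = (G td).length
      omega
    · show x.length = (G td).length
      omega
  · rintro rfl
    exact ⟨rfl, by omega⟩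

open Classical in
/-- the language of the bits of the inverse -/
noncomputable def invL (F : List Bool → List Bool) : Lang := fun w =>
  decide (∃ v, invV F (toBits (dec w).car) (toBits (dec w).cdr ++ true :: v) = true)

theorem invL_pc {F : List Bool → List Bool} {z u : List Bool} :
    invL F (PCL.pc z u) = true ↔ ∃ v, invV F z (u ++ true :: v) = true := by
  classical
  have hdec : dec (PCL.pc z u) = D.cons (toD z) (toD u) := by
    unfold PCL.pc
    rw [dec_enc]
  have hx : toBits (dec (PCL.pc z u)).car = z := by rw [hdec]; exact toBits_toD z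
  have hu : toBits (dec (PCL.pc z u)).cdr = u := by rw [hdec]; exact toBits_toD u
  unfold invL
  rw [decide_eq_true_eq, hx, hu]

theorem invL_inNP {O : Lang} {F : List Bool → List Bool} (hF : PTime O F) :
    InNP O (invL F) := by
  classical
  have hz : PTime O (fun p : List Bool × List Bool => toBits (dec p.1).car) :=
    (PTime.dec PTime.id.fst).car.toBits
  have hu : PTime O (fun p : List Bool × List Bool => toBits (dec p.1).cdr ++ true :: p.2) :=
    ((PTime.dec PTime.id.fst).cdr.toBits).append (PTime.cons (PTime.const true) PTime.id.snd)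
  refine inNP_of (V := fun p => invV F (toBits (dec p.1).car) (toBits (dec p.1).cdr ++
    true :: p.2)) (ptime_invV hF hz hu) (B := fun n => 3 * n + 1)
    (((UPoly.const 3).mul UPoly.id).add (UPoly.const 1)) ?_ ?_
  · intro w hw
    unfold invL at hw
    rw [decide_eq_true_eq] at hw
    obtain ⟨v, hv⟩ := hw
    refine ⟨v, ?_, hv⟩
    unfold invV at hv
    rw [Bool.and_eq_true, decide_eq_true_eq, decide_eq_true_eq] at hv
    have h1 := hv.2
    have h2 := PCL.toBits_length w
    simp only [List.length_append, List.length_cons] at h1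
    omega
  · intro w v hv
    unfold invL
    rw [decide_eq_true_eq]
    exact ⟨v, hv⟩

/-- the search of the inverse -/
def invS (Q : Lang) (z : List Bool) : List Bool :=
  (TD.halfU z).foldl (fun u _ => u ++ [Q (PCL.pc z u)]) []

theorem ptime_invS {Q : Lang} (hQ : PTime P Q) : PTime P (invS Q) := by
  unfold invS
  have hu : PTime P (fun p : List Bool × List Bool × Unit => p.2.1) := PTime.id.snd.fst
  have hx : PTime P (fun p : List Bool × List Bool × Unit => p.1) := PTime.id.fst
  refine PTime.foldl_add (l := fun z : List Bool => TD.halfU z)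
    (i := fun _ => ([] : List Bool)) (s := fun z u _ => u ++ [Q (PCL.pc z u)])
    (TD.ptime_halfU PTime.id) (PTime.const _)
    (hu.append (PTime.cons (hQ.comp (PTime.enc (hx.code.consD hu.code))) (PTime.const [])))
    (Polynomial.C 4) ?_
  intro x a _ _
  rw [Polynomial.eval_C, sz_snoc]
  have := bool_sz (Q (PCL.pc x a))
  omega

theorem invS_spec {O : Lang} {G F K : List Bool → List Bool}
    (h : TD.TrapdoorPermutations O G F K) {n : ℕ} {td x : List Bool} (h1 : td.length = n)
    (h2 : x.length = n) : invS (invL F) (chg G F td x) = x := by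
  have key : ∀ j ≤ n, (List.replicate j ()).foldl
      (fun u _ => u ++ [invL F (PCL.pc (chg G F td x) u)]) [] = x.take j := by
    intro j
    induction j with
    | zero => intro _; rw [List.take_zero]; rfl
    | succ j ih =>
      intro hj
      rw [List.replicate_succ', List.foldl_append, ih (by omega), List.foldl_cons, List.foldl_nil,
        List.take_succ_eq_append_getElem (by omega)]
      congr 2
      rw [Bool.eq_iff_iff, invL_pc]
      constructor
      · rintro ⟨v, hv⟩
        have h3 := (invV_iff h h1 h2 _).1 hv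
        have h4 : (x.take j).length = j := by rw [List.length_take]; omega
        have h5 : (x.take j ++ true :: v)[j]? = some true := by
          rw [List.getElem?_append_right h4.le, h4, Nat.sub_self, List.getElem?_cons_zero]
        rw [h3, List.getElem?_eq_getElem (by omega), Option.some.injEq] at h5
        exact h5
      · intro h3
        refine ⟨x.drop (j + 1), (invV_iff h h1 h2 _).2 ?_⟩
        have h4 : x.drop j = x[j] :: x.drop (j + 1) := List.drop_eq_getElem_cons (by omega)
        rw [← h3, ← h4, List.take_append_drop]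
  have h3 := key n le_rfl
  unfold invS
  rw [TD.halfU_eq, chg_length h h1 h2, Nat.mul_div_cancel_left n (by norm_num), h3, ← h2,
    List.take_length]

/-- Secure trapdoor permutations are not compatible with `NP ⊆ P`. -/
theorem not_collapse {O : Lang} {G F K : List Bool → List Bool}
    (h : TD.TrapdoorPermutations O G F K) (hS : SecurePPT O G F) :
    ¬ ∀ A, InNP O A → InP O A := by
  intro hNP
  have hF : PTime O F := ptime_of_inFP h.inFP_F
  obtain ⟨c, k, hc⟩ := inFP_of (ptime_invS (ptime_of_inP (hNP _ (invL_inNP hF))))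
  obtain ⟨n0, hn0⟩ := Filter.eventually_atTop.1 (hS c (k + 1))
  set n := max n0 (4 ^ k + 2) with hn
  have hn1 : 4 ^ k + 2 ≤ n := le_max_right _ _
  have hk4 : 0 < 4 ^ k := by positivity
  have hn2 : 4 ^ k ≤ n := by omega
  have hn3 : 2 ≤ n := by omega
  have ht : (2 * n + 2) ^ k ≤ n ^ (k + 1) := by
    calc (2 * n + 2) ^ k ≤ (4 * n) ^ k := Nat.pow_le_pow_left (by omega) k
      _ = 4 ^ k * n ^ k := by rw [mul_pow]
      _ ≤ n * n ^ k := Nat.mul_le_mul_right _ hn2
      _ = _ := by rw [pow_succ, mul_comm]
  have h1 := hn0 n (le_max_left _ _) [] (by simp) 0 (Nat.zero_le _) _ ht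
  have hfin : Finite {p : List Bool × List Bool × List Bool // p.1.length = n ∧
      p.2.1.length = n ∧ p.2.2.length = 0 ∧
      (run O c (G p.1 ++ F (G p.1 ++ p.2.1)) ([] ++ p.2.2) ((2 * n + 2) ^ k)).2 0 = p.2.1} := by
    apply Set.Finite.subset ((List.finite_length_le Bool n).prod
      ((List.finite_length_le Bool n).prod (List.finite_length_le Bool 0)))
    rintro ⟨a, b, d⟩ ⟨ha, hb, hd, _⟩
    exact ⟨ha.le, hb.le, hd.le⟩
  have h2 : 4 ^ n ≤ Nat.card {p : List Bool × List Bool × List Bool // p.1.length = n ∧
      p.2.1.length = n ∧ p.2.2.length = 0 ∧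
      (run O c (G p.1 ++ F (G p.1 ++ p.2.1)) ([] ++ p.2.2) ((2 * n + 2) ^ k)).2 0 = p.2.1} := by
    have e : Nat.card (X n × X n) = 4 ^ n := by
      rw [Nat.card_eq_fintype_card, Fintype.card_prod, card_X, ← mul_pow]
      norm_num
    rw [← e]
    apply Nat.card_le_card_of_injective (fun p : X n × X n =>
      (⟨(p.1.1, p.2.1, []), p.1.2, p.2.2, rfl, by
        have h3 := (hc (chg G F p.1.1 p.2.1)).2
        rw [chg_length h p.1.2 p.2.2, invS_spec h p.1.2 p.2.2] at h3
        exact h3⟩ : {p : List Bool × List Bool × List Bool // p.1.length = n ∧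
      p.2.1.length = n ∧ p.2.2.length = 0 ∧
      (run O c (G p.1 ++ F (G p.1 ++ p.2.1)) ([] ++ p.2.2) ((2 * n + 2) ^ k)).2 0 = p.2.1}))
    intro p p' hpp
    simp only [Subtype.mk.injEq, Prod.mk.injEq] at hpp
    exact Prod.ext (Subtype.ext hpp.1) (Subtype.ext hpp.2.1)
  have h3 : n ^ (k + 1) * 4 ^ n ≤ 4 ^ n * 2 ^ 0 := (Nat.mul_le_mul_left _ h2).trans h1
  rw [pow_zero, Nat.mul_one] at h3
  have h4 : 2 ≤ n ^ (k + 1) := by
    calc 2 ≤ n := hn3
      _ ≤ _ := Nat.le_self_pow (by omega) n
  have h5 : 2 * 4 ^ n ≤ n ^ (k + 1) * 4 ^ n := Nat.mul_le_mul_right _ h4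
  have h6 : 0 < 4 ^ n := by positivity
  omega

/-- If a complete language is in `P` then `NP` is contained in `P`. -/
theorem collapse_of_complete {O L : Lang} (hC : TuringComplete O L) (hL : InP O L) :
    ∀ A, InNP O A → InP O A := fun A hA =>
  inP_of (ptime_of_inP_sim (ptime_join_self (PTime.ask PTime.id) (ptime_of_inP hL)) (hC.2 A hA))

/-- The polynomial hierarchy. -/
theorem ph_turing {O : Lang} {b : ℕ → ℕ} {ρ : ℕ → Bool} (hmono : Monotone b) (hb : ∀ k, b k ≤ k)
    (hT : PTime O (RT b)) (hC : TuringComplete O (LL b ρ)) (j : ℕ)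
    (D : Lang) (hD : SigmaP O j D) : TuringReducible O D (LL b ρ) :=
  prio_collapse (inFP_of (ptime_prio hmono hb hT)) (prio_closed b ρ) hC j D hD

end Pool.Agent.PCW
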